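import Pool.Agent.H27.G.R_seed8.W182.KO.Series2

set_option autoImplicit false

/-! The main analytic theorem: band-limited averages with a power saving. -/

namespace Pool.Agent.W182.KO

open Complex Filter Topology MeasureTheory Set
open scoped ContDiff

noncomputable section

lemma prod_int {g : ℝ → ℝ → ℂ} (hc : Continuous (fun p : ℝ × ℝ => g p.1 p.2)) {T B : ℝ}
    (hB : ∀ t ∈ Ioc 0 T, ∀ y, ‖g t y‖ ≤ B * ((1 + |y|) ^ 2)⁻¹) :
    Integrable (fun p : ℝ × ℝ => g p.1 p.2) ((volume.restrict (Ioc 0 T)).prod volume) := by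
  have h1 : Integrable (fun p : ℝ × ℝ => B * ((1 + |p.2|) ^ 2)⁻¹)
      ((volume.restrict (Ioc 0 T)).prod volume) := by
    have : Integrable (fun _ : ℝ => B) (volume.restrict (Ioc 0 T)) := by
      refine integrable_const_iff.2 (Or.inr ?_)
      exact ⟨by simp⟩
    exact this.mul_prod one_add_inv_sq_int
  refine h1.mono' hc.aestronglyMeasurable ?_
  have h2 : (volume.restrict (Ioc (0:ℝ) T)).prod (volume : Measure ℝ) =
      ((volume : Measure ℝ).prod (volume : Measure ℝ)).restrict (Ioc 0 T ×ˢ univ) := by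
    rw [← Measure.prod_restrict, Measure.restrict_univ]
  rw [h2, ae_restrict_iff' (measurableSet_Ioc.prod MeasurableSet.univ)]
  exact Eventually.of_forall fun p hp => hB p.1 hp.1 p.2

section

variable {ξ1 κ R C1 C2 D1 D2 : ℝ} {ψ : ℝ → ℂ} {F1 F2 : ℂ → ℂ} {c : ℝ} {M : ℕ}

lemma I0_joint (h : TF ξ1 ψ) (G1 : DF F1 c R M C1) (G2 : DF F2 c R M C2) (L : ℝ) :
    Continuous (fun p : ℝ × ℝ => P ψ (L * p.2 * I) *
      (F1 (1 / 2 + (p.2 + p.1 : ℝ) * I) * F2 (1 / 2 + (p.2 - p.1 : ℝ) * I))) := by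
  have hPc : Continuous (P ψ) := (P_diff h).continuous
  have h1 := G1.line.comp (by fun_prop : Continuous fun p : ℝ × ℝ => p.2 + p.1)
  have h2 := G2.line.comp (by fun_prop : Continuous fun p : ℝ × ℝ => p.2 - p.1)
  exact (hPc.comp (by fun_prop : Continuous fun p : ℝ × ℝ => (L:ℂ) * p.2 * I)).mul (h1.mul h2)

lemma K0_joint (h : TF ξ1 ψ) (G1 : DF F1 c R M C1) (G2 : DF F2 c R M C2) (L : ℝ) :
    Continuous (fun p : ℝ × ℝ => P ψ ((L * (c - 1 / 2) : ℝ) + L * p.2 * I) *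
      (F1 (c + (p.2 + p.1 : ℝ) * I) * F2 (c + (p.2 - p.1 : ℝ) * I))) := by
  have hPc : Continuous (P ψ) := (P_diff h).continuous
  have h1 := G1.cline.comp (by fun_prop : Continuous fun p : ℝ × ℝ => p.2 + p.1)
  have h2 := G2.cline.comp (by fun_prop : Continuous fun p : ℝ × ℝ => p.2 - p.1)
  exact (hPc.comp (by fun_prop : Continuous fun p : ℝ × ℝ =>
    ((L * (c - 1 / 2) : ℝ) : ℂ) + (L:ℂ) * p.2 * I)).mul (h1.mul h2)

lemma I0_prodint (h : TF ξ1 ψ) (G1 : DF F1 c R M C1) (G2 : DF F2 c R M C2) {L : ℝ} (hL : 1 ≤ L)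
    (T : ℝ) : Integrable (fun p : ℝ × ℝ => P ψ (L * p.2 * I) *
      (F1 (1 / 2 + (p.2 + p.1 : ℝ) * I) * F2 (1 / 2 + (p.2 - p.1 : ℝ) * I)))
      ((volume.restrict (Ioc 0 T)).prod volume) := by
  obtain ⟨CN, hCN, hP⟩ := P_bound h (0 + 2 + 2 * M)
  refine prod_int (g := fun t y => P ψ (L * y * I) *
      (F1 (1 / 2 + (y + t : ℝ) * I) * F2 (1 / 2 + (y - t : ℝ) * I))) (I0_joint h G1 G2 L)
      (B := CN * (C1 * C2 * (1 + T) ^ (2 * M))) ?_
  intro t ht y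
  have hC1 := G1.hC
  have hC2 := G2.hC
  refine decay_le (n := 0) (B := CN * (C1 * C2 * (1 + T) ^ (2 * M)))
    (by have := ht.1.trans_le ht.2; positivity) (g := fun y => P ψ (L * y * I) *
      (F1 (1 / 2 + (y + t : ℝ) * I) * F2 (1 / 2 + (y - t : ℝ) * I))) (fun y => ?_) y
  refine (I0_decay G1 G2 hCN hP hL ht.1.le y).trans ?_
  have h1 := ht.1
  have h2 := ht.2
  gcongr

lemma K0_prodint (h : TF ξ1 ψ) (hc : 1 / 2 ≤ c) (G1 : DF F1 c R M C1) (G2 : DF F2 c R M C2) {L : ℝ}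
    (hL : 1 ≤ L)
    (T : ℝ) : Integrable (fun p : ℝ × ℝ => P ψ ((L * (c - 1 / 2) : ℝ) + L * p.2 * I) *
      (F1 (c + (p.2 + p.1 : ℝ) * I) * F2 (c + (p.2 - p.1 : ℝ) * I)))
      ((volume.restrict (Ioc 0 T)).prod volume) := by
  obtain ⟨CN, hCN, hP⟩ := P_bound h (0 + 2 + 2 * M)
  have hC1 := G1.hC
  have hC2 := G2.hC
  refine prod_int (g := fun t y => P ψ ((L * (c - 1 / 2) : ℝ) + L * y * I) *
      (F1 (c + (y + t : ℝ) * I) * F2 (c + (y - t : ℝ) * I))) (K0_joint h G1 G2 L)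
      (B := (CN * (C1 * C2 * Real.exp (ξ1 * (L * (c - 1 / 2)))))) ?_
  intro t ht y
  exact decay_le (n := 0) (by positivity) (g := fun y => P ψ ((L * (c - 1 / 2) : ℝ) + L * y * I) *
      (F1 (c + (y + t : ℝ) * I) * F2 (c + (y - t : ℝ) * I)))
      (fun y => K0_decay G1 G2 hc hCN hP hL t y) y

lemma I0_int (h : TF ξ1 ψ) (G1 : DF F1 c R M C1) (G2 : DF F2 c R M C2) {L : ℝ} (hL : 1 ≤ L)
    {T : ℝ} (hT : 0 ≤ T) : IntervalIntegrable (I0 ψ F1 F2 L) volume 0 T := by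
  rw [intervalIntegrable_iff_integrableOn_Ioc_of_le hT]
  exact (I0_prodint h G1 G2 hL T).integral_prod_left

lemma K0_int (h : TF ξ1 ψ) (hc : 1 / 2 ≤ c) (G1 : DF F1 c R M C1) (G2 : DF F2 c R M C2) {L : ℝ}
    (hL : 1 ≤ L) {T : ℝ} (hT : 0 ≤ T) : IntervalIntegrable (K0 ψ F1 F2 c L) volume 0 T := by
  rw [intervalIntegrable_iff_integrableOn_Ioc_of_le hT]
  exact (K0_prodint h hc G1 G2 hL T).integral_prod_left

/-- Fubini -/
theorem I0_swap (h : TF ξ1 ψ) (G1 : DF F1 c R M C1) (G2 : DF F2 c R M C2) {L : ℝ} (hL : 1 ≤ L)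
    {T : ℝ} (hT : 0 ≤ T) :
    ∫ y : ℝ, P ψ (L * y * I) * (∫ t in (0:ℝ)..T,
      F1 (1 / 2 + (y + t : ℝ) * I) * F2 (1 / 2 + (y - t : ℝ) * I)) =
      ∫ t in (0:ℝ)..T, I0 ψ F1 F2 L t := by
  have hi := I0_prodint h G1 G2 hL T
  have hs := integral_integral_swap (f := fun (t y : ℝ) => P ψ (L * y * I) *
      (F1 (1 / 2 + (y + t : ℝ) * I) * F2 (1 / 2 + (y - t : ℝ) * I))) hi
  rw [intervalIntegral.integral_of_le hT]
  unfold I0
  rw [hs]
  congr 1; funext y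
  rw [intervalIntegral.integral_of_le hT, integral_const_mul]

lemma I0_norm_le (h : TF ξ1 ψ) (G1 : DF F1 c R M C1) (G2 : DF F2 c R M C2) :
    ∃ C : ℝ, 0 ≤ C ∧ ∀ L t : ℝ, 1 ≤ L → 0 ≤ t → ‖I0 ψ F1 F2 L t‖ ≤ C * (1 + t) ^ (2 * M) := by
  obtain ⟨CN, hCN, hP⟩ := P_bound h (0 + 2 + 2 * M)
  have hC1 := G1.hC
  have hC2 := G2.hC
  refine ⟨CN * (C1 * C2) * J2, by have := J2_nonneg; positivity, fun L t hL ht => ?_⟩
  have := norm_integral_decay (n := 0) (B := CN * (C1 * C2 * (1 + t) ^ (2 * M))) (by positivity)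
    (g := fun y : ℝ => P ψ (L * y * I) *
      (F1 (1 / 2 + (y + t : ℝ) * I) * F2 (1 / 2 + (y - t : ℝ) * I)))
    (fun y => I0_decay G1 G2 hCN hP hL ht y)
  unfold I0
  refine this.trans (le_of_eq ?_)
  ring

lemma K0_norm_le (h : TF ξ1 ψ) (hc : 1 / 2 ≤ c) (G1 : DF F1 c R M C1) (G2 : DF F2 c R M C2) :
    ∃ C : ℝ, 0 ≤ C ∧ ∀ L t : ℝ, 1 ≤ L →
      ‖K0 ψ F1 F2 c L t‖ ≤ C * Real.exp (ξ1 * (L * (c - 1 / 2))) := by
  obtain ⟨CN, hCN, hP⟩ := P_bound h (0 + 2 + 2 * M)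
  have hC1 := G1.hC
  have hC2 := G2.hC
  refine ⟨CN * (C1 * C2) * J2, by have := J2_nonneg; positivity, fun L t hL => ?_⟩
  have := norm_integral_decay (n := 0) (B := CN * (C1 * C2 * Real.exp (ξ1 * (L * (c - 1 / 2)))))
    (by positivity)
    (g := fun y : ℝ => P ψ ((L * (c - 1 / 2) : ℝ) + L * y * I) *
      (F1 (c + (y + t : ℝ) * I) * F2 (c + (y - t : ℝ) * I)))
    (fun y => K0_decay G1 G2 hc hCN hP hL t y)
  unfold K0
  refine this.trans (le_of_eq ?_)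
  ring

end

variable {ξ1 κ R C1 C2 D1 D2 : ℝ} {ψ : ℝ → ℂ} {F1 F2 : ℂ → ℂ} {M : ℕ} {A B : ℕ → ℂ}

/-- **Band-limited averages.** -/
theorem core (h : TF ξ1 ψ) (hξ : 0 ≤ ξ1) (hκ : 0 < κ)
    (G1 : DF F1 (1 + 4 * κ) R M C1) (G2 : DF F2 (1 + 4 * κ) R M C2)
    (E1 : DD F1 A κ D1) (E2 : DD F2 B κ D2) {θ : ℝ} (hθ : 1 / 2 ≤ θ) (hθ1 : θ ≤ 1)
    (hθ2 : ξ1 * (1 / 2 + 4 * κ) + 1 / (2 * (2 * M + 1)) ≤ θ) :
    ∃ C T1 : ℝ, 0 ≤ C ∧ 1 ≤ T1 ∧ ∀ T : ℝ, T1 ≤ T →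
      ‖(∫ t in (0:ℝ)..T, I0 ψ F1 F2 (Real.log T) t) -
        (T : ℂ) * (((2 * Real.pi / Real.log T : ℝ) : ℂ) *
          ∑' n : ℕ, A n * B n / n * ψ (2 * Real.log n / Real.log T))‖ ≤ C * T ^ θ := by
  have hc : (1:ℝ) / 2 ≤ 1 + 4 * κ := by linarith
  obtain ⟨Ca, hCa, ha⟩ := I0_norm_le h G1 G2
  obtain ⟨Cb, hCb, hb⟩ := K0_norm_le h hc G1 G2
  obtain ⟨Cs, hCs, hs⟩ := shift h hξ G1 G2 hc (2 * (2 * M + 1) * (2 * M + 2))
  obtain ⟨W, hW, hw⟩ := series_main h hκ E1 E2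
  obtain ⟨Cd, hCd, hd⟩ := Dp_le h hκ
  refine ⟨Ca * 2 ^ (2 * M) + Cb + Cs * 2 ^ (2 * M) + W * Cd,
    max (Real.exp 1) ((max 1 (2 * R)) ^ (2 * (2 * M + 1))), by positivity, ?_, ?_⟩
  · exact le_max_of_le_left (by have := Real.add_one_le_exp 1; linarith)
  intro T hT
  have hTe : Real.exp 1 ≤ T := (le_max_left _ _).trans hT
  have hT1 : 1 ≤ T := by have := Real.add_one_le_exp 1; linarith
  have hT0 : 0 < T := by linarith
  have hL : 1 ≤ Real.log T := by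
    rw [Real.le_log_iff_exp_le hT0]; exact hTe
  set L := Real.log T with hLdef
  set ε : ℝ := 1 / (2 * (2 * M + 1)) with hε
  have hε0 : 0 < ε := by positivity
  set U : ℝ := T ^ ε with hU
  have hUT : U ^ (2 * (2 * M + 1)) = T := by
    rw [hU, ← Real.rpow_natCast, ← Real.rpow_mul hT0.le]
    have : ε * ((2 * (2 * M + 1) : ℕ) : ℝ) = 1 := by
      rw [hε]; push_cast; field_simp
    rw [this, Real.rpow_one]
  have hU1 : 1 ≤ U := Real.one_le_rpow hT1 hε0.le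
  have hUR : max 1 (2 * R) ≤ U := by
    by_contra hlt
    push Not at hlt
    have h1 : U ^ (2 * (2 * M + 1)) < (max 1 (2 * R)) ^ (2 * (2 * M + 1)) :=
      pow_lt_pow_left₀ hlt (by linarith) (by omega)
    rw [hUT] at h1
    exact absurd ((le_max_right _ _).trans hT) (not_le.2 h1)
  have hR : 2 * R ≤ U := (le_max_right _ _).trans hUR
  have hUleT : U ≤ T := by
    rw [← hUT]; exact le_self_pow₀ hU1 (by omega)
  have hE : Real.exp (ξ1 * (L * (1 + 4 * κ - 1 / 2))) = T ^ (ξ1 * (1 / 2 + 4 * κ)) := by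
    rw [Real.rpow_def_of_pos hT0]
    congr 1; rw [hLdef]; ring
  have hET : T ^ (ξ1 * (1 / 2 + 4 * κ)) ≤ T := by
    nth_rewrite 2 [← Real.rpow_one T]
    refine Real.rpow_le_rpow_of_exponent_le hT1 ?_
    linarith
  have hETθ : T ^ (ξ1 * (1 / 2 + 4 * κ)) ≤ T ^ θ :=
    Real.rpow_le_rpow_of_exponent_le hT1 (by linarith)
  have hEUθ : U * T ^ (ξ1 * (1 / 2 + 4 * κ)) ≤ T ^ θ := by
    rw [hU, ← Real.rpow_add hT0]
    exact Real.rpow_le_rpow_of_exponent_le hT1 (by linarith)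
  have h1θ : 1 ≤ T ^ θ := Real.one_le_rpow hT1 (by linarith)
  have hUhalf : U ^ (2 * M + 1) ≤ T ^ θ := by
    have e1 : U ^ (2 * M + 1) = T ^ (1 / 2 : ℝ) := by
      rw [hU, ← Real.rpow_natCast, ← Real.rpow_mul hT0.le]
      congr 1
      rw [hε]; push_cast; field_simp
    rw [e1]
    exact Real.rpow_le_rpow_of_exponent_le hT1 hθ
  have iI := I0_int h G1 G2 hL hT0.le
  have iK := K0_int h hc G1 G2 hL hT0.le
  have iI1 : IntervalIntegrable (I0 ψ F1 F2 L) volume 0 U :=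
    iI.mono_set (by rw [uIcc_of_le (by linarith), uIcc_of_le hT0.le]; exact Icc_subset_Icc_right hUleT)
  have iI2 : IntervalIntegrable (I0 ψ F1 F2 L) volume U T :=
    iI.mono_set (by rw [uIcc_of_le hUleT, uIcc_of_le hT0.le]; exact Icc_subset_Icc_left (by linarith))
  have iK1 : IntervalIntegrable (K0 ψ F1 F2 (1 + 4 * κ) L) volume 0 U :=
    iK.mono_set (by rw [uIcc_of_le (by linarith), uIcc_of_le hT0.le]; exact Icc_subset_Icc_right hUleT)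
  have iK2 : IntervalIntegrable (K0 ψ F1 F2 (1 + 4 * κ) L) volume U T :=
    iK.mono_set (by rw [uIcc_of_le hUleT, uIcc_of_le hT0.le]; exact Icc_subset_Icc_left (by linarith))
  -- first piece
  have p1 : ‖∫ t in (0:ℝ)..U, I0 ψ F1 F2 L t‖ ≤ (Ca * 2 ^ (2 * M)) * T ^ θ := by
    have := intervalIntegral.norm_integral_le_of_norm_le_const (a := 0) (b := U)
      (f := I0 ψ F1 F2 L) (C := Ca * (2 * U) ^ (2 * M)) (fun t ht => by
        rw [uIoc_of_le (by linarith)] at ht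
        refine (ha L t hL ht.1.le).trans ?_
        have := ht.1
        have := ht.2
        gcongr
        linarith)
    refine this.trans ?_
    rw [sub_zero, abs_of_pos (by linarith)]
    calc Ca * (2 * U) ^ (2 * M) * U = (Ca * 2 ^ (2 * M)) * U ^ (2 * M + 1) := by
          rw [mul_pow, pow_succ]; ring
      _ ≤ _ := by gcongr
  have p2 : ‖∫ t in (0:ℝ)..U, K0 ψ F1 F2 (1 + 4 * κ) L t‖ ≤ Cb * T ^ θ := by
    have := intervalIntegral.norm_integral_le_of_norm_le_const (a := 0) (b := U)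
      (f := K0 ψ F1 F2 (1 + 4 * κ) L) (C := Cb * T ^ (ξ1 * (1 / 2 + 4 * κ))) (fun t ht => by
        refine (hb L t hL).trans (le_of_eq ?_)
        rw [hE])
    refine this.trans ?_
    rw [sub_zero, abs_of_pos (by linarith)]
    calc _ = Cb * (U * T ^ (ξ1 * (1 / 2 + 4 * κ))) := by ring
      _ ≤ _ := by gcongr
  have p3 : ‖∫ t in U..T, (I0 ψ F1 F2 L t - K0 ψ F1 F2 (1 + 4 * κ) L t)‖ ≤
      (Cs * 2 ^ (2 * M)) * T ^ θ := by
    have hUn : U ^ (2 * (2 * M + 1) * (2 * M + 2)) = T ^ (2 * M + 2) := by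
      rw [pow_mul, hUT]
    have := intervalIntegral.norm_integral_le_of_norm_le_const (a := U) (b := T)
      (f := fun t => I0 ψ F1 F2 L t - K0 ψ F1 F2 (1 + 4 * κ) L t)
      (C := Cs * (T * (2 * T) ^ (2 * M)) / T ^ (2 * M + 2)) (fun t ht => by
        rw [uIoc_of_le hUleT] at ht
        have h0 : 0 ≤ t := by linarith [ht.1]
        refine (hs L U t hL hU1 hR ht.1.le).trans ?_
        rw [hE, hUn]
        have := ht.2
        gcongr
        linarith)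
    refine this.trans ?_
    rw [abs_of_nonneg (by linarith)]
    calc Cs * (T * (2 * T) ^ (2 * M)) / T ^ (2 * M + 2) * (T - U) ≤
        Cs * (T * (2 * T) ^ (2 * M)) / T ^ (2 * M + 2) * T := by gcongr; linarith
      _ = Cs * 2 ^ (2 * M) := by
          rw [mul_pow, pow_add T (2 * M) 2]; field_simp
      _ ≤ _ := le_mul_of_one_le_right (by positivity) h1θ
  have p4 : ‖(∫ t in (0:ℝ)..T, K0 ψ F1 F2 (1 + 4 * κ) L t) - (T : ℂ) *
      (((2 * Real.pi / L : ℝ) : ℂ) * ∑' n : ℕ, A n * B n / n * ψ (2 * Real.log n / L))‖ ≤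
      (W * Cd) * T ^ θ := by
    have := hw L hL 0 T hT0.le
    rw [sub_zero] at this
    refine this.trans ?_
    have h2 := hd L hL
    rw [hE] at h2
    calc W * Dp ψ κ L ≤ W * (Cd * T ^ (ξ1 * (1 / 2 + 4 * κ))) := by gcongr
      _ ≤ W * (Cd * T ^ θ) := by gcongr
      _ = _ := by ring
  have e1 : (∫ t in (0:ℝ)..T, I0 ψ F1 F2 L t) = (∫ t in (0:ℝ)..U, I0 ψ F1 F2 L t) -
      (∫ t in (0:ℝ)..U, K0 ψ F1 F2 (1 + 4 * κ) L t) +
      (∫ t in U..T, (I0 ψ F1 F2 L t - K0 ψ F1 F2 (1 + 4 * κ) L t)) +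
      ∫ t in (0:ℝ)..T, K0 ψ F1 F2 (1 + 4 * κ) L t := by
    rw [intervalIntegral.integral_sub iI2 iK2, ← intervalIntegral.integral_add_adjacent_intervals iI1 iI2,
      ← intervalIntegral.integral_add_adjacent_intervals iK1 iK2]
    ring
  rw [e1]
  set S : ℂ := (T : ℂ) * (((2 * Real.pi / L : ℝ) : ℂ) *
    ∑' n : ℕ, A n * B n / n * ψ (2 * Real.log n / L)) with hS
  calc _ = ‖((∫ t in (0:ℝ)..U, I0 ψ F1 F2 L t) - (∫ t in (0:ℝ)..U, K0 ψ F1 F2 (1 + 4 * κ) L t)) +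
      (∫ t in U..T, (I0 ψ F1 F2 L t - K0 ψ F1 F2 (1 + 4 * κ) L t)) +
      ((∫ t in (0:ℝ)..T, K0 ψ F1 F2 (1 + 4 * κ) L t) - S)‖ := by congr 1; ring
    _ ≤ ‖(∫ t in (0:ℝ)..U, I0 ψ F1 F2 L t)‖ + ‖∫ t in (0:ℝ)..U, K0 ψ F1 F2 (1 + 4 * κ) L t‖ +
      ‖∫ t in U..T, (I0 ψ F1 F2 L t - K0 ψ F1 F2 (1 + 4 * κ) L t)‖ +
      ‖(∫ t in (0:ℝ)..T, K0 ψ F1 F2 (1 + 4 * κ) L t) - S‖ := by
        refine (norm_add_le _ _).trans (add_le_add ((norm_add_le _ _).trans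
          (add_le_add (norm_sub_le _ _) le_rfl)) le_rfl)
    _ ≤ _ := by
        have : 0 ≤ T ^ θ := by positivity
        nlinarith [p1, p2, p3, p4]

end

end Pool.Agent.W182.KO
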