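import Pool.Agent.H27.G.R_seed8.W182.KO.Shift

set_option autoImplicit false

/-! Expanding the correlation on the line `c > 1` into the double Dirichlet series. -/

namespace Pool.Agent.W182.KO

open Complex Filter Topology MeasureTheory Set
open scoped ContDiff

noncomputable section

/-- Dirichlet series data of one factor, `c = 1 + 4 κ`. -/
structure DD (F : ℂ → ℂ) (A : ℕ → ℂ) (κ D : ℝ) : Prop where
  A0 : A 0 = 0
  ptw : ∀ n : ℕ, ‖A n‖ ≤ D * (n : ℝ) ^ κ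
  ser : ∀ u : ℝ, HasSum (fun n : ℕ => A n * (n : ℂ) ^ (-((1 + 4 * κ : ℝ) + u * I) : ℂ))
    (F ((1 + 4 * κ : ℝ) + u * I))

/-- the comparison function -/
def uu (κ : ℝ) (n : ℕ) : ℝ := (n : ℝ) ^ (-(1 + 3 * κ))

lemma uu_nonneg (κ : ℝ) (n : ℕ) : 0 ≤ uu κ n := Real.rpow_nonneg (Nat.cast_nonneg n) _

lemma uu_zero {κ : ℝ} (hκ : 0 < κ) : uu κ 0 = 0 := by
  unfold uu
  rw [Nat.cast_zero, Real.zero_rpow (by linarith)]

lemma uu_summable {κ : ℝ} (hκ : 0 < κ) : Summable (uu κ) :=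
  Real.summable_nat_rpow.2 (by linarith)

lemma uu_prod_summable {κ : ℝ} (hκ : 0 < κ) :
    Summable (fun x : ℕ × ℕ => uu κ x.1 * uu κ x.2) :=
  (uu_summable hκ).mul_of_nonneg (uu_summable hκ) (uu_nonneg κ) (uu_nonneg κ)

lemma uu_sub_summable {κ : ℝ} (hκ : 0 < κ) :
    Summable (fun x : ℕ × ℕ => uu κ x.2 * uu κ (x.1 - x.2)) := by
  have hi : Function.Injective (fun x : ℕ × ℕ => (x.1 + x.2, x.1)) := by
    rintro ⟨a, b⟩ ⟨a', b'⟩ h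
    simp only [Prod.mk.injEq] at h ⊢
    omega
  refine (hi.summable_iff ?_).1 ?_
  · rintro ⟨m, n⟩ hx
    have : m < n := by
      by_contra hlt
      push Not at hlt
      exact hx ⟨(n, m - n), Prod.ext (by simp only; omega) rfl⟩
    simp only
    rw [Nat.sub_eq_zero_of_le this.le, uu_zero hκ, mul_zero]
  · refine (uu_prod_summable hκ).congr fun x => ?_
    simp only [Function.comp]
    rw [Nat.add_sub_cancel_left]

lemma uu_sub_summable' {κ : ℝ} (hκ : 0 < κ) :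
    Summable (fun x : ℕ × ℕ => uu κ x.1 * uu κ (x.2 - x.1)) :=
  ((Equiv.prodComm ℕ ℕ).summable_iff.2 (uu_sub_summable hκ)).congr fun x => by
    simp [Function.comp]

/-- the key inequality for the off-diagonal terms, `n < m` -/
lemma off_aux {κ : ℝ} (hκ : 0 < κ) {m n : ℕ} (hn : 1 ≤ n) (hmn : n < m) :
    ((m : ℝ) ^ κ * (n : ℝ) ^ κ) * ((m : ℝ) ^ (-(1 + 4 * κ)) * (n : ℝ) ^ (-(1 + 4 * κ))) *
      (2 / |Real.log m - Real.log n|) ≤ 2 * (uu κ n * uu κ (m - n)) := by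
  have hn0 : (0:ℝ) < n := by exact_mod_cast hn
  have hm0 : (0:ℝ) < m := by exact_mod_cast (by omega : 0 < m)
  have hd : ((m - n : ℕ) : ℝ) = (m:ℝ) - n := Nat.cast_sub hmn.le
  have hd0 : (0:ℝ) < (m:ℝ) - n := by rw [← hd]; exact_mod_cast (by omega : 0 < m - n)
  have hlog : ((m:ℝ) - n) / m ≤ Real.log m - Real.log n := by
    have h1 := Real.log_le_sub_one_of_pos (div_pos hn0 hm0)
    rw [Real.log_div hn0.ne' hm0.ne'] at h1
    have h2 : (n:ℝ) / m - 1 = -(((m:ℝ) - n) / m) := by field_simp; ring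
    linarith
  have hl0 : 0 < Real.log m - Real.log n := lt_of_lt_of_le (by positivity) hlog
  rw [abs_of_pos hl0]
  have h3 : 2 / (Real.log m - Real.log n) ≤ 2 * (m / ((m:ℝ) - n)) := by
    rw [div_le_iff₀ hl0]
    have : 2 * ((m:ℝ) / (m - n)) * (((m:ℝ) - n) / m) = 2 := by field_simp
    calc (2:ℝ) = 2 * ((m:ℝ) / (m - n)) * (((m:ℝ) - n) / m) := this.symm
      _ ≤ _ := by gcongr
  have h4 : ((m : ℝ) ^ κ * (n : ℝ) ^ κ) * ((m : ℝ) ^ (-(1 + 4 * κ)) * (n : ℝ) ^ (-(1 + 4 * κ))) =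
      (m : ℝ) ^ (-(1 + 3 * κ)) * (n : ℝ) ^ (-(1 + 3 * κ)) := by
    have e1 : (m : ℝ) ^ (-(1 + 3 * κ)) = (m : ℝ) ^ κ * (m : ℝ) ^ (-(1 + 4 * κ)) := by
      rw [← Real.rpow_add hm0]; congr 1; ring
    have e2 : (n : ℝ) ^ (-(1 + 3 * κ)) = (n : ℝ) ^ κ * (n : ℝ) ^ (-(1 + 4 * κ)) := by
      rw [← Real.rpow_add hn0]; congr 1; ring
    rw [e1, e2]; ring
  rw [h4]
  have h5 : (m : ℝ) ^ (-(1 + 3 * κ)) * m ≤ ((m:ℝ) - n) ^ (-(3 * κ)) := by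
    have e1 : (m : ℝ) ^ (-(1 + 3 * κ)) * m = (m:ℝ) ^ (-(3 * κ)) := by
      nth_rewrite 2 [← Real.rpow_one (m:ℝ)]
      rw [← Real.rpow_add hm0]; congr 1; ring
    rw [e1]
    exact Real.rpow_le_rpow_of_nonpos hd0 (by linarith) (by linarith)
  have h6 : ((m:ℝ) - n) ^ (-(3 * κ)) * (1 / ((m:ℝ) - n)) = uu κ (m - n) := by
    unfold uu
    rw [hd, one_div, ← Real.rpow_neg_one ((m:ℝ) - n), ← Real.rpow_add hd0]
    congr 1; ring
  have hnp : 0 ≤ (n : ℝ) ^ (-(1 + 3 * κ)) := Real.rpow_nonneg hn0.le _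
  have hmp : 0 ≤ (m : ℝ) ^ (-(1 + 3 * κ)) := Real.rpow_nonneg hm0.le _
  calc (m : ℝ) ^ (-(1 + 3 * κ)) * (n : ℝ) ^ (-(1 + 3 * κ)) * (2 / (Real.log m - Real.log n))
      ≤ (m : ℝ) ^ (-(1 + 3 * κ)) * (n : ℝ) ^ (-(1 + 3 * κ)) * (2 * (m / ((m:ℝ) - n))) := by
        gcongr
    _ = 2 * ((n : ℝ) ^ (-(1 + 3 * κ)) * (((m : ℝ) ^ (-(1 + 3 * κ)) * m) * (1 / ((m:ℝ) - n)))) := by
        ring
    _ ≤ 2 * ((n : ℝ) ^ (-(1 + 3 * κ)) * ((((m:ℝ) - n) ^ (-(3 * κ))) * (1 / ((m:ℝ) - n)))) := by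
        gcongr
    _ = _ := by rw [h6]; rfl

/-- off-diagonal majorant -/
lemma off_le {κ : ℝ} (hκ : 0 < κ) {m n : ℕ} (hm : 1 ≤ m) (hn : 1 ≤ n) (hmn : m ≠ n) :
    ((m : ℝ) ^ κ * (n : ℝ) ^ κ) * ((m : ℝ) ^ (-(1 + 4 * κ)) * (n : ℝ) ^ (-(1 + 4 * κ))) *
      (2 / |Real.log m - Real.log n|) ≤ 2 * (uu κ n * uu κ (m - n) + uu κ m * uu κ (n - m)) := by
  rcases lt_or_gt_of_ne hmn with h | h
  · have h1 := off_aux hκ hm h
    have e : ((m : ℝ) ^ κ * (n : ℝ) ^ κ) * ((m : ℝ) ^ (-(1 + 4 * κ)) * (n : ℝ) ^ (-(1 + 4 * κ))) *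
        (2 / |Real.log m - Real.log n|) = ((n : ℝ) ^ κ * (m : ℝ) ^ κ) *
          ((n : ℝ) ^ (-(1 + 4 * κ)) * (m : ℝ) ^ (-(1 + 4 * κ))) *
        (2 / |Real.log n - Real.log m|) := by
      rw [abs_sub_comm]; ring
    rw [e]
    refine h1.trans ?_
    have := mul_nonneg (uu_nonneg κ n) (uu_nonneg κ (m - n))
    linarith
  · have h1 := off_aux hκ hn h
    refine h1.trans ?_
    have := mul_nonneg (uu_nonneg κ m) (uu_nonneg κ (n - m))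
    linarith

lemma cpow_eq {n : ℕ} (hn : 1 ≤ n) (c u : ℝ) :
    (n : ℂ) ^ (-((c : ℝ) + u * I) : ℂ) = (((n : ℝ) ^ (-c) : ℝ) : ℂ) * exp (-(u * Real.log n) * I) := by
  have hn0 : (0:ℝ) < n := by exact_mod_cast hn
  have hnc : (n : ℂ) ≠ 0 := by exact_mod_cast hn0.ne'
  rw [Complex.cpow_def_of_ne_zero hnc, Real.rpow_def_of_pos hn0, ← Complex.natCast_log,
    Complex.ofReal_exp, ← Complex.exp_add]
  congr 1
  push_cast
  ring

variable {ψ : ℝ → ℂ} {ξ1 κ D1 D2 : ℝ} {F1 F2 : ℂ → ℂ} {A B : ℕ → ℂ}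

/-- weight on the line `c` -/
def Pc (ψ : ℝ → ℂ) (κ L y : ℝ) : ℂ := P ψ ((L * (1 + 4 * κ - 1 / 2) : ℝ) + L * y * I)

/-- the `y`-integral attached to a pair -/
def qq (ψ : ℝ → ℂ) (κ L : ℝ) (x : ℕ × ℕ) : ℂ :=
  ∫ y : ℝ, Pc ψ κ L y * exp (-((Real.log x.1 + Real.log x.2) * y) * I)

/-- coefficient of a pair -/
def aa (ψ : ℝ → ℂ) (A B : ℕ → ℂ) (κ L : ℝ) (x : ℕ × ℕ) : ℂ :=
  A x.1 * B x.2 * (((x.1 : ℝ) ^ (-(1 + 4 * κ)) * (x.2 : ℝ) ^ (-(1 + 4 * κ)) : ℝ) : ℂ) * qq ψ κ L x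

lemma term_norm {D : ℝ} {F : ℂ → ℂ} (E : DD F A κ D) (u : ℝ) (n : ℕ) :
    ‖A n * (n : ℂ) ^ (-((1 + 4 * κ : ℝ) + u * I) : ℂ)‖ = ‖A n‖ * (n : ℝ) ^ (-(1 + 4 * κ)) := by
  rcases Nat.eq_zero_or_pos n with h | h
  · subst h; rw [E.A0]; simp
  · rw [norm_mul, cpow_eq h, norm_mul, Complex.norm_real, Real.norm_of_nonneg (by positivity)]
    have : ‖exp (-((u:ℂ) * Real.log n) * I)‖ = 1 := by
      have : (-((u:ℂ) * Real.log n) * I) = ((-(u * Real.log n) : ℝ) : ℂ) * I := by push_cast; ring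
      rw [this, Complex.norm_exp_ofReal_mul_I]
    rw [this, mul_one]

lemma SA_le {D : ℝ} {F : ℂ → ℂ} (E : DD F A κ D) (n : ℕ) :
    ‖A n‖ * (n : ℝ) ^ (-(1 + 4 * κ)) ≤ D * uu κ n := by
  rcases Nat.eq_zero_or_pos n with h | h
  · subst h
    rw [E.A0, norm_zero, zero_mul]
    have h1 := E.ptw 0
    rw [E.A0, norm_zero] at h1
    have h2 := E.ptw 1
    rw [Nat.cast_one, Real.one_rpow, mul_one] at h2
    exact mul_nonneg ((norm_nonneg _).trans h2) (uu_nonneg κ 0)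
  · have hn0 : (0:ℝ) < n := by exact_mod_cast h
    have e1 : uu κ n = (n : ℝ) ^ κ * (n : ℝ) ^ (-(1 + 4 * κ)) := by
      unfold uu
      rw [← Real.rpow_add hn0]; congr 1; ring
    rw [e1, ← mul_assoc]
    exact mul_le_mul_of_nonneg_right (E.ptw n) (by positivity)

lemma DD.D_nonneg {D : ℝ} {F : ℂ → ℂ} (E : DD F A κ D) : 0 ≤ D := by
  have h2 := E.ptw 1
  rw [Nat.cast_one, Real.one_rpow, mul_one] at h2
  exact (norm_nonneg _).trans h2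

lemma SA_summable {D : ℝ} {F : ℂ → ℂ} (hκ : 0 < κ) (E : DD F A κ D) :
    Summable (fun n : ℕ => ‖A n‖ * (n : ℝ) ^ (-(1 + 4 * κ))) :=
  Summable.of_nonneg_of_le (fun n => by positivity) (SA_le E) ((uu_summable hκ).mul_left D)

lemma term_norm_summable {D : ℝ} {F : ℂ → ℂ} (hκ : 0 < κ) (E : DD F A κ D) (u : ℝ) :
    Summable (fun n : ℕ => ‖A n * (n : ℂ) ^ (-((1 + 4 * κ : ℝ) + u * I) : ℂ)‖) :=
  (SA_summable hκ E).congr fun n => (term_norm E u n).symm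

lemma SS_summable (hκ : 0 < κ) (E1 : DD F1 A κ D1) (E2 : DD F2 B κ D2) :
    Summable (fun x : ℕ × ℕ => (‖A x.1‖ * (x.1 : ℝ) ^ (-(1 + 4 * κ))) *
      (‖B x.2‖ * (x.2 : ℝ) ^ (-(1 + 4 * κ)))) :=
  (SA_summable hκ E1).mul_of_nonneg (SA_summable hκ E2) (fun n => by positivity)
    (fun n => by positivity)

lemma prod_hasSum_aux {f g : ℕ → ℂ} {a b : ℂ} (hf : HasSum f a) (hg : HasSum g b)
    (hf' : Summable fun n => ‖f n‖) (hg' : Summable fun n => ‖g n‖) :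
    HasSum (fun x : ℕ × ℕ => f x.1 * g x.2) (a * b) :=
  hf.mul hg (summable_mul_of_summable_norm hf' hg')

lemma prod_hasSum (hκ : 0 < κ) (E1 : DD F1 A κ D1) (E2 : DD F2 B κ D2) (u v : ℝ) :
    HasSum (fun x : ℕ × ℕ => (A x.1 * (x.1 : ℂ) ^ (-((1 + 4 * κ : ℝ) + u * I) : ℂ)) *
      (B x.2 * (x.2 : ℂ) ^ (-((1 + 4 * κ : ℝ) + v * I) : ℂ)))
      (F1 ((1 + 4 * κ : ℝ) + u * I) * F2 ((1 + 4 * κ : ℝ) + v * I)) := by
  have e1 := E1.ser u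
  have e2 := E2.ser v
  have e3 := term_norm_summable hκ E1 u
  have e4 := term_norm_summable hκ E2 v
  have e5 := prod_hasSum_aux e1 e2 e3 e4
  convert e5 using 3

/-- continuity and integrability of the weight -/
lemma Pc_cont (h : TF ξ1 ψ) (L : ℝ) : Continuous (Pc ψ κ L) :=
  (P_diff h).continuous.comp (by fun_prop)

lemma Pc_bound (h : TF ξ1 ψ) (hκ : 0 < κ) : ∃ C : ℝ, 0 ≤ C ∧ ∀ L : ℝ, 1 ≤ L → ∀ y : ℝ,
    ‖Pc ψ κ L y‖ ≤ (C * Real.exp (ξ1 * (L * (1 + 4 * κ - 1 / 2)))) / (1 + |y|) ^ (0 + 2) := by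
  obtain ⟨C, hC, hP⟩ := P_bound h 2
  refine ⟨C, hC, fun L hL y => ?_⟩
  have e0 : ((L * (1 + 4 * κ - 1 / 2) : ℝ) + (L:ℂ) * y * I).re = L * (1 + 4 * κ - 1 / 2) := by simp
  have e1 : ((L * (1 + 4 * κ - 1 / 2) : ℝ) + (L:ℂ) * y * I).im = L * y := by simp
  have hLc : 0 ≤ L * (1 + 4 * κ - 1 / 2) := mul_nonneg (by linarith) (by linarith)
  have h1 := P_bd_line (ψ := ψ) hP (z := (L * (1 + 4 * κ - 1 / 2) : ℝ) + (L:ℂ) * y * I) (y := y)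
    (by rw [e0]; exact hLc) (by
    rw [e1, abs_mul, abs_of_pos (by linarith : 0 < L)]
    exact le_mul_of_one_le_left (abs_nonneg _) hL)
  rw [e0] at h1
  rw [zero_add]
  exact h1

lemma Pc_int (h : TF ξ1 ψ) (hκ : 0 < κ) {L : ℝ} (hL : 1 ≤ L) : Integrable (Pc ψ κ L) := by
  obtain ⟨C, hC, hb⟩ := Pc_bound h hκ
  exact decay_integrable (n := 0) (Pc_cont h L) (by positivity) (hb L hL)

/-- the total mass of the weight -/
def Dp (ψ : ℝ → ℂ) (κ L : ℝ) : ℝ := ∫ y : ℝ, ‖Pc ψ κ L y‖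

lemma Dp_nonneg (L : ℝ) : 0 ≤ Dp ψ κ L := integral_nonneg fun _ => norm_nonneg _

lemma Dp_le (h : TF ξ1 ψ) (hκ : 0 < κ) : ∃ C : ℝ, 0 ≤ C ∧ ∀ L : ℝ, 1 ≤ L →
    Dp ψ κ L ≤ C * Real.exp (ξ1 * (L * (1 + 4 * κ - 1 / 2))) := by
  obtain ⟨C, hC, hb⟩ := Pc_bound h hκ
  refine ⟨C * J2, mul_nonneg hC J2_nonneg, fun L hL => ?_⟩
  have h1 : ∀ y, ‖Pc ψ κ L y‖ ≤
      (C * Real.exp (ξ1 * (L * (1 + 4 * κ - 1 / 2)))) * ((1 + |y|) ^ 2)⁻¹ :=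
    decay_le (n := 0) (by positivity) (hb L hL)
  unfold Dp
  calc ∫ y : ℝ, ‖Pc ψ κ L y‖ ≤ ∫ y : ℝ,
        (C * Real.exp (ξ1 * (L * (1 + 4 * κ - 1 / 2)))) * ((1 + |y|) ^ 2)⁻¹ :=
        integral_mono (Pc_int h hκ hL).norm (one_add_inv_sq_int.const_mul _) h1
    _ = _ := by rw [integral_const_mul]; unfold J2; ring

lemma norm_expI (a : ℝ) : ‖exp ((a : ℂ) * I)‖ = 1 := Complex.norm_exp_ofReal_mul_I a

lemma qq_le (L : ℝ) (x : ℕ × ℕ) : ‖qq ψ κ L x‖ ≤ Dp ψ κ L := by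
  unfold qq Dp
  refine (norm_integral_le_integral_norm _).trans (le_of_eq ?_)
  congr 1; funext y
  rw [norm_mul]
  have : (-(((Real.log x.1 : ℝ) + (Real.log x.2 : ℝ) : ℂ) * y) * I) =
      ((-((Real.log x.1 + Real.log x.2) * y) : ℝ) : ℂ) * I := by push_cast; ring
  rw [this, norm_expI, mul_one]

lemma aa_le (L : ℝ) (x : ℕ × ℕ) : ‖aa ψ A B κ L x‖ ≤
    Dp ψ κ L * ((‖A x.1‖ * (x.1 : ℝ) ^ (-(1 + 4 * κ))) * (‖B x.2‖ * (x.2 : ℝ) ^ (-(1 + 4 * κ)))) := by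
  unfold aa
  rw [norm_mul, norm_mul, norm_mul, Complex.norm_real, Real.norm_of_nonneg (by positivity)]
  have := qq_le (ψ := ψ) (κ := κ) L x
  calc _ ≤ ‖A x.1‖ * ‖B x.2‖ * ((x.1 : ℝ) ^ (-(1 + 4 * κ)) * (x.2 : ℝ) ^ (-(1 + 4 * κ))) * Dp ψ κ L := by
        gcongr
    _ = _ := by ring

lemma aa_summable (hκ : 0 < κ) (E1 : DD F1 A κ D1) (E2 : DD F2 B κ D2) (L : ℝ) :
    Summable (fun x => ‖aa ψ A B κ L x‖) :=
  Summable.of_nonneg_of_le (fun _ => norm_nonneg _) (aa_le L) ((SS_summable hκ E1 E2).mul_left _)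

/-- the expansion for fixed `t` -/
theorem K0_hasSum (h : TF ξ1 ψ) (hκ : 0 < κ) (E1 : DD F1 A κ D1) (E2 : DD F2 B κ D2) {L : ℝ}
    (hL : 1 ≤ L) (t : ℝ) :
    HasSum (fun x : ℕ × ℕ => aa ψ A B κ L x *
      exp ((-(Real.log x.1 - Real.log x.2) * t : ℝ) * I)) (K0 ψ F1 F2 (1 + 4 * κ) L t) := by
  set f : ℕ × ℕ → ℝ → ℂ := fun x y => Pc ψ κ L y *
    ((A x.1 * (x.1 : ℂ) ^ (-((1 + 4 * κ : ℝ) + (y + t : ℝ) * I) : ℂ)) *
      (B x.2 * (x.2 : ℂ) ^ (-((1 + 4 * κ : ℝ) + (y - t : ℝ) * I) : ℂ))) with hf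
  have hfe : ∀ x y, f x y = (A x.1 * B x.2 *
      (((x.1 : ℝ) ^ (-(1 + 4 * κ)) * (x.2 : ℝ) ^ (-(1 + 4 * κ)) : ℝ) : ℂ) *
      exp ((-(Real.log x.1 - Real.log x.2) * t : ℝ) * I)) *
      (Pc ψ κ L y * exp (-((Real.log x.1 + Real.log x.2) * y) * I)) := by
    intro x y
    rw [hf]
    simp only
    rcases Nat.eq_zero_or_pos x.1 with h1 | h1
    · rw [h1, E1.A0]; simp
    rcases Nat.eq_zero_or_pos x.2 with h2 | h2
    · rw [h2, E2.A0]; simp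
    rw [cpow_eq h1, cpow_eq h2]
    have e : exp (-(((y + t : ℝ) : ℂ) * Real.log x.1) * I) * exp (-(((y - t : ℝ) : ℂ) * Real.log x.2) * I) =
        exp ((-(Real.log x.1 - Real.log x.2) * t : ℝ) * I) *
          exp (-((Real.log x.1 + Real.log x.2) * y) * I) := by
      rw [← exp_add, ← exp_add]
      congr 1
      push_cast; ring
    push_cast at e ⊢
    linear_combination (Pc ψ κ L y * A x.1 * B x.2 * ((x.1 : ℝ) ^ (-(1 + 4 * κ)) : ℝ) *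
      ((x.2 : ℝ) ^ (-(1 + 4 * κ)) : ℝ)) * e
  have hfi : ∀ x, Integrable (f x) := by
    intro x
    have : f x = fun y => (A x.1 * B x.2 *
      (((x.1 : ℝ) ^ (-(1 + 4 * κ)) * (x.2 : ℝ) ^ (-(1 + 4 * κ)) : ℝ) : ℂ) *
      exp ((-(Real.log x.1 - Real.log x.2) * t : ℝ) * I)) *
      (Pc ψ κ L y * exp (-((Real.log x.1 + Real.log x.2) * y) * I)) := funext (hfe x)
    rw [this]
    refine Integrable.const_mul ?_ _
    refine (Pc_int h hκ hL).mul_bdd (c := 1) ?_ ?_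
    · exact (by fun_prop : Continuous fun y : ℝ =>
        exp (-(((Real.log x.1 : ℝ) + (Real.log x.2 : ℝ) : ℂ) * y) * I)).aestronglyMeasurable
    · refine Eventually.of_forall fun y => ?_
      have : (-(((Real.log x.1 : ℝ) + (Real.log x.2 : ℝ) : ℂ) * y) * I) =
        ((-((Real.log x.1 + Real.log x.2) * y) : ℝ) : ℂ) * I := by push_cast; ring
      rw [this, norm_expI]
  have hfn : ∀ x y, ‖f x y‖ = ((‖A x.1‖ * (x.1 : ℝ) ^ (-(1 + 4 * κ))) *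
      (‖B x.2‖ * (x.2 : ℝ) ^ (-(1 + 4 * κ)))) * ‖Pc ψ κ L y‖ := by
    intro x y
    rw [hf]
    simp only
    rw [norm_mul, norm_mul, term_norm E1, term_norm E2]
    ring
  have hsum : Summable fun x => ∫ y, ‖f x y‖ := by
    refine ((SS_summable hκ E1 E2).mul_right (Dp ψ κ L)).congr fun x => ?_
    simp only [hfn]
    rw [integral_const_mul]; rfl
  have key := hasSum_integral_of_summable_integral_norm hfi hsum
  have e1 : (∫ y, ∑' x, f x y) = K0 ψ F1 F2 (1 + 4 * κ) L t := by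
    unfold K0
    congr 1; funext y
    rw [hf]
    simp only
    rw [tsum_mul_left, (prod_hasSum hκ E1 E2 (y + t) (y - t)).tsum_eq]
    rfl
  rw [e1] at key
  have e2 : (fun x => ∫ y, f x y) = fun x : ℕ × ℕ => aa ψ A B κ L x *
      exp ((-(Real.log x.1 - Real.log x.2) * t : ℝ) * I) := by
    funext x
    simp only [hfe]
    rw [integral_const_mul]
    unfold aa qq
    ring
  rw [e2] at key
  exact key

end

end Pool.Agent.W182.KO
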