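import Pool.Agent.H27.G.R_seed8.W182.KO.Series

set_option autoImplicit false

/-! Integrating the expansion over `t` and separating the diagonal. -/

namespace Pool.Agent.W182.KO

open Complex Filter Topology MeasureTheory Set
open scoped ContDiff

noncomputable section

variable {ψ : ℝ → ℂ} {ξ1 κ D1 D2 : ℝ} {F1 F2 : ℂ → ℂ} {A B : ℕ → ℂ}

/-- the `t`-integral attached to a pair -/
def ee (a b : ℝ) (x : ℕ × ℕ) : ℂ :=
  ∫ t in a..b, exp ((-(Real.log x.1 - Real.log x.2) * t : ℝ) * I)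

lemma ee_diag (a b : ℝ) (n : ℕ) : ee a b (n, n) = ((b - a : ℝ) : ℂ) := by
  unfold ee
  simp

lemma ee_off {a b : ℝ} {x : ℕ × ℕ} (hx : Real.log x.1 - Real.log x.2 ≠ 0) :
    ‖ee a b x‖ ≤ 2 / |Real.log x.1 - Real.log x.2| := by
  unfold ee
  set d : ℝ := -(Real.log x.1 - Real.log x.2) with hd
  have hd0 : d ≠ 0 := neg_ne_zero.2 hx
  have hc : (d : ℂ) * I ≠ 0 := mul_ne_zero (by exact_mod_cast hd0) I_ne_zero
  have e1 : ∀ t : ℝ, exp (((d * t : ℝ) : ℂ) * I) = exp (((d : ℂ) * I) * t) := by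
    intro t; congr 1; push_cast; ring
  simp only [e1]
  rw [integral_exp_mul_complex hc, norm_div]
  have e2 : ‖(d : ℂ) * I‖ = |Real.log x.1 - Real.log x.2| := by
    rw [norm_mul, norm_I, mul_one, Complex.norm_real, Real.norm_eq_abs, hd, abs_neg]
  rw [e2]
  refine div_le_div_of_nonneg_right ?_ (abs_nonneg _)
  refine (norm_sub_le _ _).trans ?_
  have e3 : ∀ t : ℝ, ‖exp (((d : ℂ) * I) * t)‖ = 1 := by
    intro t; rw [← e1, norm_expI]
  rw [e3, e3]; norm_num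

/-- the expansion of the integral over `t` -/
theorem int_hasSum (h : TF ξ1 ψ) (hκ : 0 < κ) (E1 : DD F1 A κ D1) (E2 : DD F2 B κ D2) {L : ℝ}
    (hL : 1 ≤ L) {a b : ℝ} (hab : a ≤ b) :
    HasSum (fun x : ℕ × ℕ => aa ψ A B κ L x * ee a b x)
      (∫ t in a..b, K0 ψ F1 F2 (1 + 4 * κ) L t) := by
  have hint : ∀ x : ℕ × ℕ, Integrable (fun t : ℝ => aa ψ A B κ L x *
      exp ((-(Real.log x.1 - Real.log x.2) * t : ℝ) * I)) (volume.restrict (Ioc a b)) := by
    intro x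
    refine (Continuous.integrableOn_Icc ?_).mono_set Ioc_subset_Icc_self
    fun_prop
  have hn : ∀ (x : ℕ × ℕ) (t : ℝ), ‖aa ψ A B κ L x *
      exp ((-(Real.log x.1 - Real.log x.2) * t : ℝ) * I)‖ = ‖aa ψ A B κ L x‖ := by
    intro x t
    rw [norm_mul, norm_expI, mul_one]
  have hs : Summable fun x : ℕ × ℕ => ∫ t in Ioc a b, ‖aa ψ A B κ L x *
      exp ((-(Real.log x.1 - Real.log x.2) * t : ℝ) * I)‖ := by
    simp only [hn]
    refine ((aa_summable (ψ := ψ) hκ E1 E2 L).mul_left (b - a)).congr fun x => ?_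
    rw [setIntegral_const]
    simp only [Real.volume_real_Ioc_of_le hab, smul_eq_mul]
  have key := hasSum_integral_of_summable_integral_norm hint hs
  have e1 : (∫ t in Ioc a b, ∑' x : ℕ × ℕ, aa ψ A B κ L x *
      exp ((-(Real.log x.1 - Real.log x.2) * t : ℝ) * I)) =
      ∫ t in a..b, K0 ψ F1 F2 (1 + 4 * κ) L t := by
    rw [intervalIntegral.integral_of_le hab]
    congr 1; funext t
    exact (K0_hasSum h hκ E1 E2 hL t).tsum_eq
  rw [e1] at key
  have e2 : (fun x : ℕ × ℕ => ∫ t in Ioc a b, aa ψ A B κ L x *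
      exp ((-(Real.log x.1 - Real.log x.2) * t : ℝ) * I)) =
      fun x : ℕ × ℕ => aa ψ A B κ L x * ee a b x := by
    funext x
    unfold ee
    rw [intervalIntegral.integral_of_le hab, integral_const_mul]
  rw [e2] at key
  exact key

/-- the diagonal coefficients -/
lemma aa_diag (h : TF ξ1 ψ) (hκ : 0 < κ) (E1 : DD F1 A κ D1) {L : ℝ} (hL : 1 ≤ L) (n : ℕ) :
    aa ψ A B κ L (n, n) = ((2 * Real.pi / L : ℝ) : ℂ) *
      (A n * B n / n * ψ (2 * Real.log n / L)) := by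
  rcases Nat.eq_zero_or_pos n with hn | hn
  · subst hn; unfold aa; simp [E1.A0]
  have hn0 : (0:ℝ) < n := by exact_mod_cast hn
  have hL0 : 0 < L := by linarith
  have hq : qq ψ κ L (n, n) = ((2 * Real.pi / L : ℝ) : ℂ) * (ψ (2 * Real.log n / L) *
      (((n : ℝ) ^ (1 + 8 * κ) : ℝ) : ℂ)) := by
    have hi := P_inv h (σ := L * (1 + 4 * κ - 1 / 2)) (L := L)
      (mul_nonneg hL0.le (by linarith)) hL0 (2 * Real.log n / L)
    unfold qq Pc
    have e1 : (((n : ℝ) ^ (1 + 8 * κ) : ℝ) : ℂ) =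
        exp (((2 * Real.log n / L : ℝ) : ℂ) * ((L * (1 + 4 * κ - 1 / 2) : ℝ) : ℂ)) := by
      rw [Real.rpow_def_of_pos hn0, Complex.ofReal_exp]
      congr 1
      rw [← Complex.ofReal_mul]
      congr 1
      field_simp
      ring
    rw [e1, ← hi]
    congr 1; funext y
    congr 2
    simp only
    have hLc : (L : ℂ) ≠ 0 := by exact_mod_cast hL0.ne'
    push_cast
    field_simp
    ring
  unfold aa
  rw [hq]
  simp only
  have e2 : (n : ℝ) ^ (-(1 + 4 * κ)) * (n : ℝ) ^ (-(1 + 4 * κ)) * (n : ℝ) ^ (1 + 8 * κ) = 1 / n := by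
    rw [← Real.rpow_add hn0, ← Real.rpow_add hn0, one_div, ← Real.rpow_neg_one]
    congr 1; ring
  have e3 := congrArg (fun r : ℝ => (r : ℂ)) e2
  push_cast at e3 ⊢
  linear_combination (A n * B n * (2 * Real.pi / L) * ψ (2 * Real.log n / L)) * e3

theorem series_main (h : TF ξ1 ψ) (hκ : 0 < κ) (E1 : DD F1 A κ D1) (E2 : DD F2 B κ D2) :
    ∃ W : ℝ, 0 ≤ W ∧ ∀ L : ℝ, 1 ≤ L → ∀ a b : ℝ, a ≤ b →
      ‖(∫ t in a..b, K0 ψ F1 F2 (1 + 4 * κ) L t) - ((b - a : ℝ) : ℂ) * (((2 * Real.pi / L : ℝ) : ℂ) *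
        ∑' n : ℕ, A n * B n / n * ψ (2 * Real.log n / L))‖ ≤ W * Dp ψ κ L := by
  have hsm : Summable (fun x : ℕ × ℕ => uu κ x.2 * uu κ (x.1 - x.2) + uu κ x.1 * uu κ (x.2 - x.1)) :=
    (uu_sub_summable hκ).add (uu_sub_summable' hκ)
  have hD1 := E1.D_nonneg
  have hD2 := E2.D_nonneg
  have hnn : ∀ x : ℕ × ℕ, 0 ≤ uu κ x.2 * uu κ (x.1 - x.2) + uu κ x.1 * uu κ (x.2 - x.1) :=
    fun x => add_nonneg (mul_nonneg (uu_nonneg _ _) (uu_nonneg _ _))
      (mul_nonneg (uu_nonneg _ _) (uu_nonneg _ _))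
  refine ⟨D1 * D2 * 2 * ∑' x : ℕ × ℕ, (uu κ x.2 * uu κ (x.1 - x.2) + uu κ x.1 * uu κ (x.2 - x.1)),
    mul_nonneg (by positivity) (tsum_nonneg hnn), ?_⟩
  intro L hL a b hab
  have hDp : 0 ≤ Dp ψ κ L := Dp_nonneg L
  have hmain := int_hasSum h hκ E1 E2 hL hab
  set g : ℕ × ℕ → ℂ := fun x => if x.1 = x.2 then aa ψ A B κ L x * ((b - a : ℝ) : ℂ) else 0 with hg
  have hdi : Function.Injective (fun n : ℕ => ((n, n) : ℕ × ℕ)) := fun m n hmn => by
    simp only [Prod.mk.injEq] at hmn; exact hmn.1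
  have hsd : Summable (fun n : ℕ => aa ψ A B κ L (n, n)) :=
    ((aa_summable hκ E1 E2 L).comp_injective hdi).of_norm
  have hgs : HasSum g (((b - a : ℝ) : ℂ) * (((2 * Real.pi / L : ℝ) : ℂ) *
        ∑' n : ℕ, A n * B n / n * ψ (2 * Real.log n / L))) := by
    refine (hdi.hasSum_iff ?_).1 ?_
    · rintro ⟨m, n⟩ hx
      have : m ≠ n := by
        rintro rfl
        exact hx ⟨m, rfl⟩
      simp only [hg, this, if_false]
    · have e1 : g ∘ (fun n : ℕ => ((n, n) : ℕ × ℕ)) = fun n => ((b - a : ℝ) : ℂ) * aa ψ A B κ L (n, n) := by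
        funext n
        simp only [Function.comp, hg, if_true]
        ring
      rw [e1]
      have e2 : (((2 * Real.pi / L : ℝ) : ℂ) * ∑' n : ℕ, A n * B n / n * ψ (2 * Real.log n / L)) =
          ∑' n : ℕ, aa ψ A B κ L (n, n) := by
        rw [← tsum_mul_left]
        exact tsum_congr fun n => (aa_diag h hκ E1 hL n).symm
      rw [e2]
      exact hsd.hasSum.mul_left _
  have hdiff := hmain.sub hgs
  have hbd : ∀ x : ℕ × ℕ, ‖aa ψ A B κ L x * ee a b x - g x‖ ≤ (Dp ψ κ L * (D1 * D2 * 2)) *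
      (uu κ x.2 * uu κ (x.1 - x.2) + uu κ x.1 * uu κ (x.2 - x.1)) := by
    rintro ⟨m, n⟩
    have hr := hnn (m, n)
    simp only at hr
    have hR : 0 ≤ (Dp ψ κ L * (D1 * D2 * 2)) *
      (uu κ n * uu κ (m - n) + uu κ m * uu κ (n - m)) := by positivity
    by_cases hmn : m = n
    · subst hmn
      simp only [hg, if_true, ee_diag, sub_self, norm_zero]
      exact hR
    · simp only [hg, hmn, if_false, sub_zero]
      rcases Nat.eq_zero_or_pos m with hm | hm
      · subst hm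
        have : aa ψ A B κ L (0, n) = 0 := by unfold aa; simp [E1.A0]
        rw [this, zero_mul, norm_zero]; exact hR
      rcases Nat.eq_zero_or_pos n with hn | hn
      · subst hn
        have : aa ψ A B κ L (m, 0) = 0 := by unfold aa; simp [E2.A0]
        rw [this, zero_mul, norm_zero]; exact hR
      have hm0 : (0:ℝ) < m := by exact_mod_cast hm
      have hn0 : (0:ℝ) < n := by exact_mod_cast hn
      have hlog : Real.log m - Real.log n ≠ 0 := by
        intro h0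
        have := Real.log_injOn_pos (mem_Ioi.2 hm0) (mem_Ioi.2 hn0) (by linarith)
        exact hmn (by exact_mod_cast this)
      have h1 := ee_off (a := a) (b := b) (x := (m, n)) hlog
      have h2 := aa_le (ψ := ψ) (A := A) (B := B) (κ := κ) L (m, n)
      have h3 := off_le hκ hm hn hmn
      have h4 := E1.ptw m
      have h5 := E2.ptw n
      simp only at h1 h2
      rw [norm_mul]
      calc ‖aa ψ A B κ L (m, n)‖ * ‖ee a b (m, n)‖ ≤
          (Dp ψ κ L * ((‖A m‖ * (m : ℝ) ^ (-(1 + 4 * κ))) * (‖B n‖ * (n : ℝ) ^ (-(1 + 4 * κ))))) *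
            (2 / |Real.log m - Real.log n|) := by gcongr
        _ ≤ (Dp ψ κ L * (((D1 * (m:ℝ) ^ κ) * (m : ℝ) ^ (-(1 + 4 * κ))) *
            ((D2 * (n:ℝ) ^ κ) * (n : ℝ) ^ (-(1 + 4 * κ))))) *
            (2 / |Real.log m - Real.log n|) := by gcongr
        _ = (Dp ψ κ L * (D1 * D2)) * (((m : ℝ) ^ κ * (n : ℝ) ^ κ) *
            ((m : ℝ) ^ (-(1 + 4 * κ)) * (n : ℝ) ^ (-(1 + 4 * κ))) *
            (2 / |Real.log m - Real.log n|)) := by ring
        _ ≤ (Dp ψ κ L * (D1 * D2)) * (2 * (uu κ n * uu κ (m - n) + uu κ m * uu κ (n - m))) := by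
            gcongr
        _ = _ := by ring
  have hfin := hdiff.norm_le_of_bounded (hsm.hasSum.mul_left (Dp ψ κ L * (D1 * D2 * 2))) hbd
  refine hfin.trans (le_of_eq ?_)
  ring

end

end Pool.Agent.W182.KO
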