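import Pool.Agent.H27.G.R_seed8.W182.KO.Core
import Pool.Agent.H27.G.R_seed8.H306R2.Window
import Pool.Agent.H27.G.R_seed8.H510R2.Div

set_option autoImplicit false

/-! Products of shifted zeta functions and their Dirichlet coefficients. -/

namespace Pool.Agent.W182.KO

open Complex Filter Topology MeasureTheory Set
open scoped ContDiff

noncomputable section

/-- product of shifted zeta functions -/
def ZP {k : ℕ} (z : Fin k → ℝ) (s : ℂ) : ℂ := ∏ j, riemannZeta (s + z j * I)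

/-- generalised divisor function with exponents -/
def tau {k : ℕ} (l : Fin k → ℂ) (n : ℕ) : ℂ := ∑ f ∈ Nat.finMulAntidiag k n, ∏ j, (f j : ℂ) ^ (l j)

lemma antidiag_succ {k : ℕ} (g : Fin (k + 1) → ℕ → ℂ) (n : ℕ) :
    ∑ f ∈ Nat.finMulAntidiag (k + 1) n, ∏ j, g j (f j) =
      ∑ p ∈ n.divisorsAntidiagonal, g 0 p.1 * ∑ f ∈ Nat.finMulAntidiag k p.2, ∏ j, g j.succ (f j) := by
  simp_rw [Finset.mul_sum]
  rw [Finset.sum_sigma']
  refine Finset.sum_bij' (fun f _ => ⟨(f 0, ∏ j : Fin k, f (Fin.succ j)), fun j => f j.succ⟩)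
    (fun q _ => Fin.cons q.1.1 q.2) ?_ ?_ ?_ ?_ ?_
  · intro f hf
    rw [Nat.mem_finMulAntidiag, Fin.prod_univ_succ] at hf
    simp only [Finset.mem_sigma, Nat.mem_divisorsAntidiagonal, Nat.mem_finMulAntidiag, true_and]
    refine ⟨hf, ?_⟩
    intro h
    rw [h, mul_zero] at hf
    exact hf.2 hf.1.symm
  · rintro ⟨⟨a, b⟩, f⟩ hf
    simp only [Finset.mem_sigma, Nat.mem_divisorsAntidiagonal, Nat.mem_finMulAntidiag] at hf ⊢
    rw [Fin.prod_univ_succ]
    simp only [Fin.cons_zero, Fin.cons_succ]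
    rw [hf.2.1]
    exact hf.1
  · intro f hf
    simp only
    exact Fin.cons_self_tail f
  · rintro ⟨⟨a, b⟩, f⟩ hf
    simp only [Finset.mem_sigma, Nat.mem_divisorsAntidiagonal, Nat.mem_finMulAntidiag] at hf
    simp only [Fin.cons_zero, Fin.cons_succ, hf.2.1]
  · intro f hf
    simp only
    rw [Fin.prod_univ_succ]

lemma tau_zero {k : ℕ} (l : Fin k → ℂ) : tau l 0 = 0 := by
  simp [tau]

lemma tau_hasSum : ∀ (k : ℕ) (z : Fin k → ℝ) (s : ℂ), 1 < s.re →
    LSeriesHasSum (tau (fun j => -(z j * I))) s (ZP z s)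
  | 0, z, s, _ => by
      have h1 : (tau (fun j => -(z j * I)) : ℕ → ℂ) = fun n => if n = 1 then 1 else 0 := by
        funext n
        unfold tau
        split_ifs with h
        · subst h
          rw [Nat.finMulAntidiag_one]
          simp
        · rw [Nat.finMulAntidiag_zero_left h]
          simp
      rw [h1]
      unfold ZP
      simp only [Finset.univ_eq_empty, Finset.prod_empty]
      unfold LSeriesHasSum
      have h2 : LSeries.term (fun n => if n = 1 then (1:ℂ) else 0) s = fun n => if n = 1 then 1 else 0 := by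
        funext n
        rw [LSeries.term]
        by_cases h' : n = 1
        · subst h'; simp
        · simp [h']
      rw [h2]
      exact hasSum_ite_eq 1 1
  | k + 1, z, s, hs => by
      have ih := tau_hasSum k (fun j => z j.succ) s hs
      have h0 : LSeriesHasSum (fun n : ℕ => (n:ℂ) ^ (-(z 0 * I))) s (riemannZeta (s + z 0 * I)) := by
        have hs' : 1 < (s + z 0 * I).re := by simpa using hs
        have h1 := LSeriesHasSum_one hs'
        unfold LSeriesHasSum at h1 ⊢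
        refine h1.congr_fun ?_ 
        intro n
        rcases Nat.eq_zero_or_pos n with hn | hn
        · subst hn; simp
        · rw [LSeries.term_of_ne_zero hn.ne', LSeries.term_of_ne_zero hn.ne', Pi.one_apply,
            Complex.cpow_add _ _ (by exact_mod_cast hn.ne'), Complex.cpow_neg]
          field_simp
      have h2 := h0.convolution ih
      have e1 : ZP z s = riemannZeta (s + z 0 * I) * ZP (fun j => z j.succ) s := by
        unfold ZP
        rw [Fin.prod_univ_succ]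
      rw [e1]
      convert h2 using 1
      funext n
      rw [LSeries.convolution_def]
      unfold tau
      exact antidiag_succ (fun j n => (n:ℂ) ^ (-(z j * I))) n

lemma tau_norm_le {k : ℕ} (z : Fin k → ℝ) (n : ℕ) :
    ‖tau (fun j => -(z j * I)) n‖ ≤ (n.divisors.card : ℝ) ^ k := by
  rcases Nat.eq_zero_or_pos n with hn | hn
  · subst hn; rw [tau_zero, norm_zero]; positivity
  unfold tau
  have h1 : ∀ f ∈ Nat.finMulAntidiag k n, ‖∏ j, (f j : ℂ) ^ (-(z j * I))‖ ≤ 1 := by
    intro f hf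
    rw [norm_prod]
    refine Finset.prod_le_one (fun _ _ => norm_nonneg _) fun j _ => ?_
    have h0 : 0 < f j := Nat.pos_of_ne_zero (Nat.ne_zero_of_mem_finMulAntidiag hf j)
    rw [Complex.norm_natCast_cpow_of_pos h0]
    simp
  refine (norm_sum_le_of_le _ h1).trans ?_
  rw [Finset.sum_const, nsmul_eq_mul, mul_one]
  have h2 : (Nat.finMulAntidiag k n).card ≤ n.divisors.card ^ k := by
    rw [Nat.finMulAntidiag_eq_piFinset_divisors_filter dvd_rfl hn.ne']
    refine (Finset.card_filter_le _ _).trans ?_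
    rw [Fintype.card_piFinset]
    simp
  exact_mod_cast h2

lemma tau_ptw (k : ℕ) {κ : ℝ} (hκ : 0 < κ) : ∃ D : ℝ, 0 ≤ D ∧ ∀ (z : Fin k → ℝ) (n : ℕ),
    ‖tau (fun j => -(z j * I)) n‖ ≤ D * (n : ℝ) ^ κ := by
  rcases Nat.eq_zero_or_pos k with hk | hk
  · subst hk
    refine ⟨1, zero_le_one, fun z n => ?_⟩
    rcases Nat.eq_zero_or_pos n with hn | hn
    · subst hn; rw [tau_zero, norm_zero]; positivity
    refine (tau_norm_le z n).trans ?_
    rw [pow_zero, one_mul]
    exact Real.one_le_rpow (by exact_mod_cast hn) hκ.le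
  obtain ⟨C, hC0, hC⟩ := Pool.Agent.H510R2.divisor_bound (κ / k) (by positivity)
  refine ⟨C ^ k, by positivity, fun z n => ?_⟩
  rcases Nat.eq_zero_or_pos n with hn | hn
  · subst hn; rw [tau_zero, norm_zero]; positivity
  refine (tau_norm_le z n).trans ?_
  calc (n.divisors.card : ℝ) ^ k ≤ (C * (n : ℝ) ^ (κ / k)) ^ k := by
        gcongr
        exact hC n hn
    _ = C ^ k * (n : ℝ) ^ κ := by
        rw [mul_pow, ← Real.rpow_natCast ((n:ℝ) ^ (κ / k)), ← Real.rpow_mul (by positivity)]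
        congr 2
        field_simp

lemma ZP_DD {k : ℕ} (z : Fin k → ℝ) {κ D : ℝ} (hκ : 0 < κ)
    (hD : ∀ n : ℕ, ‖tau (fun j => -(z j * I)) n‖ ≤ D * (n : ℝ) ^ κ) :
    DD (ZP z) (tau (fun j => -(z j * I))) κ D where
  A0 := tau_zero _
  ptw := hD
  ser u := by
    have hs : 1 < (((1 + 4 * κ : ℝ) : ℂ) + u * I).re := by
      simp; exact hκ
    have h := tau_hasSum k z _ hs
    unfold LSeriesHasSum at h
    refine h.congr_fun fun n => ?_
    rcases Nat.eq_zero_or_pos n with hn | hn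
    · subst hn; rw [tau_zero]; simp
    · rw [LSeries.term_of_ne_zero hn.ne', Complex.cpow_neg]
      rfl

/-- the width outside which all the zeta factors are analytic -/
def RR {k : ℕ} (z : Fin k → ℝ) : ℝ := 1 + ∑ j, |z j|

lemma RR_pos {k : ℕ} (z : Fin k → ℝ) : 1 ≤ RR z := by
  unfold RR
  have : 0 ≤ ∑ j, |z j| := Finset.sum_nonneg fun j _ => abs_nonneg _
  linarith

lemma RR_le {k : ℕ} (z : Fin k → ℝ) (j : Fin k) : 1 + |z j| ≤ RR z := by
  unfold RR
  have := Finset.single_le_sum (f := fun j => |z j|) (fun j _ => abs_nonneg _) (Finset.mem_univ j)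
  linarith

lemma ZP_fac {k : ℕ} (z : Fin k → ℝ) {c : ℝ} {s : ℂ} (h2 : 1 / 2 ≤ s.re) (hc : s.re ≤ c)
    (j : Fin k) (h1 : 1 / 2 ≤ ‖s + z j * I - 1‖) :
    ‖riemannZeta (s + z j * I)‖ ≤ 6 * (c + RR z + 1) ^ 2 * (1 + |s.im|) ^ 2 := by
  have h3 := H306R2.zeta_norm_le (s := s + z j * I) (by simpa using h2) h1
  refine h3.trans ?_
  have h4 : ‖s + z j * I‖ ≤ c + |s.im| + RR z - 1 := by
    calc ‖s + z j * I‖ ≤ ‖s‖ + ‖(z j * I : ℂ)‖ := norm_add_le _ _
      _ ≤ (|s.re| + |s.im|) + |z j| := by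
          refine add_le_add (Complex.norm_le_abs_re_add_abs_im s) ?_
          simp
      _ ≤ _ := by
          rw [abs_of_nonneg (by linarith : 0 ≤ s.re)]
          have := RR_le z j
          linarith
  have h5 : ‖s + z j * I‖ + 1 ≤ (c + RR z + 1) * (1 + |s.im|) := by
    have := abs_nonneg s.im
    have := RR_pos z
    nlinarith
  calc 6 * (‖s + z j * I‖ + 1) ^ 2 ≤ 6 * ((c + RR z + 1) * (1 + |s.im|)) ^ 2 := by gcongr
    _ = _ := by ring

lemma ZP_bound {k : ℕ} (z : Fin k → ℝ) {c : ℝ} {s : ℂ} (h2 : 1 / 2 ≤ s.re) (hc : s.re ≤ c)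
    (h1 : ∀ j, 1 / 2 ≤ ‖s + z j * I - 1‖) {M : ℕ} (hM : 2 * k ≤ M) :
    ‖ZP z s‖ ≤ (6 * (c + RR z + 1) ^ 2) ^ k * (1 + |s.im|) ^ M := by
  unfold ZP
  rw [norm_prod]
  calc ∏ j, ‖riemannZeta (s + z j * I)‖ ≤ ∏ _j : Fin k, (6 * (c + RR z + 1) ^ 2 * (1 + |s.im|) ^ 2) :=
        Finset.prod_le_prod (fun _ _ => norm_nonneg _) fun j _ => ZP_fac z h2 hc j (h1 j)
    _ = (6 * (c + RR z + 1) ^ 2) ^ k * (1 + |s.im|) ^ (2 * k) := by
        rw [Finset.prod_const, Finset.card_univ, Fintype.card_fin, mul_pow, ← pow_mul]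
    _ ≤ _ := by
        gcongr
        have := abs_nonneg s.im
        linarith

lemma ZP_norm_line {k : ℕ} (z : Fin k → ℝ) {κ D : ℝ} (hκ : 0 < κ) (hD0 : 0 ≤ D)
    (hD : ∀ n : ℕ, ‖tau (fun j => -(z j * I)) n‖ ≤ D * (n : ℝ) ^ κ) (u : ℝ) :
    ‖ZP z ((1 + 4 * κ : ℝ) + u * I)‖ ≤ D * ∑' n : ℕ, (n : ℝ) ^ (-(1 + 3 * κ)) := by
  have hs := (ZP_DD z hκ hD).ser u
  have hsum : Summable (fun n : ℕ => (n : ℝ) ^ (-(1 + 3 * κ))) :=
    Real.summable_nat_rpow.2 (by linarith)
  rw [← hs.tsum_eq, ← tsum_mul_left]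
  refine tsum_of_norm_bounded (hsum.mul_left D).hasSum fun n => ?_
  rcases Nat.eq_zero_or_pos n with hn | hn
  · subst hn; rw [tau_zero]; simp; positivity
  rw [norm_mul, Complex.norm_natCast_cpow_of_pos hn]
  simp only [neg_re, add_re, ofReal_re, mul_re, I_re, mul_zero, ofReal_im, I_im, mul_one, sub_self,
    add_zero]
  calc _ ≤ D * (n : ℝ) ^ κ * (n : ℝ) ^ (-(1 + 4 * κ)) := by
        gcongr
        exact hD n
    _ = _ := by
        rw [mul_assoc, ← Real.rpow_add (by exact_mod_cast hn)]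
        congr 2
        ring

lemma ZP_DF {k : ℕ} (z : Fin k → ℝ) {κ D : ℝ} (hκ : 0 < κ) (hD0 : 0 ≤ D)
    (hD : ∀ n : ℕ, ‖tau (fun j => -(z j * I)) n‖ ≤ D * (n : ℝ) ^ κ) {M : ℕ} (hM : 2 * k ≤ M)
    {R : ℝ} (hR : RR z ≤ R) :
    ∃ C, DF (ZP z) (1 + 4 * κ) R M C := by
  set E : ℝ := D * ∑' n : ℕ, (n : ℝ) ^ (-(1 + 3 * κ)) with hE
  have hE0 : 0 ≤ E := (norm_nonneg _).trans (ZP_norm_line z hκ hD0 hD 0)
  set B : ℝ := (6 * ((1 + 4 * κ) + RR z + 1) ^ 2) ^ k with hB
  have hB0 : 0 ≤ B := by positivity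
  have hfar : ∀ s : ℂ, R ≤ |s.im| → ∀ j, 1 ≤ ‖s + z j * I - 1‖ := by
    intro s hs j
    have h1 := Complex.abs_im_le_norm (s + z j * I - 1)
    simp only [sub_im, add_im, mul_im, ofReal_re, I_im, mul_one, ofReal_im, I_re, mul_zero, add_zero,
      one_im, sub_zero] at h1
    have h2 := RR_le z j
    have h3 := abs_sub_abs_le_abs_sub s.im (-z j)
    rw [abs_neg, sub_neg_eq_add] at h3
    linarith
  refine ⟨B + E, ⟨by positivity, ?_, ?_, ?_, ?_, ?_, ?_⟩⟩
  · intro s h1 h2 h3
    have h4 := hfar s h3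
    unfold ZP
    have h5 : ∀ j : Fin k, DifferentiableAt ℂ (fun s : ℂ => riemannZeta (s + z j * I)) s := by
      intro j
      refine DifferentiableAt.comp s (differentiableAt_riemannZeta ?_) (by fun_prop)
      intro h
      have := h4 j
      rw [h] at this
      simp at this
      linarith
    exact DifferentiableAt.fun_finsetProd (fun j _ => h5 j)
  · unfold ZP
    refine continuous_finsetProd _ fun j _ => ?_
    have h1 := H306R2.zeta_line_continuous.comp (by fun_prop : Continuous fun u : ℝ => u + z j)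
    refine h1.congr fun u => ?_
    simp only [Function.comp]
    congr 1
    push_cast
    ring
  · unfold ZP
    refine continuous_finsetProd _ fun j _ => ?_
    rw [continuous_iff_continuousAt]
    intro u
    have h5 : DifferentiableAt ℂ riemannZeta (((1 + 4 * κ : ℝ) : ℂ) + u * I + z j * I) := by
      refine differentiableAt_riemannZeta ?_
      intro h
      have := congrArg Complex.re h
      simp at this
      linarith
    exact ContinuousAt.comp (f := fun u : ℝ => (((1 + 4 * κ : ℝ) : ℂ) + u * I + z j * I)) h5.continuousAt (by fun_prop)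
  · intro u
    have h1 := ZP_bound z (c := 1 + 4 * κ) (s := 1 / 2 + u * I) (by simp) (by simp; linarith)
      (fun j => ?_) hM
    · have h2 : (1 / 2 + (u:ℂ) * I).im = u := by simp
      rw [h2] at h1
      refine h1.trans ?_
      gcongr
      linarith
    · have h1 := Complex.abs_re_le_norm (1 / 2 + u * I + z j * I - 1)
      simp at h1
      norm_num at h1
      exact h1
  · intro s h1 h2 h3
    have h4 := ZP_bound z (c := 1 + 4 * κ) (s := s) h1 h2 (fun j => by
      linarith [hfar s h3 j]) hM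
    refine h4.trans ?_
    gcongr
    linarith
  · intro u
    exact (ZP_norm_line z hκ hD0 hD u).trans (by linarith)

end

end Pool.Agent.W182.KO
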