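import Pool.Agent.H27.G.R_seed8.W182.KO.Up2

set_option autoImplicit false

/-! The integral of the model correlation over `t`. -/

namespace Pool.Agent.W182.KO

open Complex Filter Topology MeasureTheory Set
open scoped ContDiff

noncomputable section

section

variable {ψ : ℝ → ℂ} {ξ1 κ D1 D2 : ℝ} {F1 F2 : ℂ → ℂ} {A B : ℕ → ℂ}

/-- coefficient -/
def cf (A B : ℕ → ℂ) (L : ℝ) (x : ℕ × ℕ) : ℂ :=
  ((2 * Real.pi / L : ℝ) : ℂ) * (A x.1 * B x.2 *
    (((x.1 : ℝ) ^ (-(1 / 2) : ℝ) * (x.2 : ℝ) ^ (-(1 / 2) : ℝ) : ℝ) : ℂ))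

/-- term at `t` -/
def tm (ψ : ℝ → ℂ) (k : ℕ) (S : ℝ) (A B : ℕ → ℂ) (L : ℝ) (x : ℕ × ℕ) (t : ℝ) : ℂ :=
  cf A B L x * (gg ψ k S L ((Real.log x.1 + Real.log x.2) / L) t *
    exp ((-(Real.log x.1 - Real.log x.2) * t : ℝ) * I))

lemma log_t_le {T t : ℝ} (h1 : 1 ≤ t) (h2 : t ≤ T) : Real.log (t / (2 * Real.pi)) ≤ Real.log T := by
  refine Real.log_le_log (by positivity) (le_trans ?_ h2)
  rw [div_le_iff₀ (by positivity)]
  have := Real.pi_gt_three
  nlinarith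

lemma gg_zero (h : TF ξ1 ψ) {k : ℕ} {S L T m t : ℝ} (hL : 0 < L) (hT : Real.log T ≤ L)
    (h1 : 1 ≤ t) (h2 : t ≤ T) (hm : ξ1 + 2 * k < m) : gg ψ k S L m t = 0 := by
  unfold gg
  rw [h.sp, mul_zero]
  have h3 := (log_t_le h1 h2).trans hT
  have h4 : 2 * (k:ℝ) * Real.log (t / (2 * Real.pi)) / L ≤ 2 * k := by
    rw [div_le_iff₀ hL]
    gcongr
  linarith

lemma tm_diag {k : ℕ} {S L t : ℝ} (n : ℕ) (hA : A 0 = 0) :
    tm ψ k S A B L (n, n) t = ((2 * Real.pi / L : ℝ) : ℂ) * (A n * B n / n) *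
      gg ψ k S L (2 * Real.log n / L) t := by
  rcases Nat.eq_zero_or_pos n with hn | hn
  · subst hn; unfold tm cf; simp [hA]
  have hn0 : (0:ℝ) < n := by exact_mod_cast hn
  unfold tm cf
  simp only [sub_self, neg_zero, zero_mul, Complex.ofReal_zero, exp_zero, mul_one]
  have e1 : (n : ℝ) ^ (-(1 / 2) : ℝ) * (n : ℝ) ^ (-(1 / 2) : ℝ) = 1 / n := by
    have : (-(1 / 2) : ℝ) + -(1 / 2) = -1 := by norm_num
    rw [← Real.rpow_add hn0, this, Real.rpow_neg_one, one_div]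
  rw [e1]
  have e2 : (Real.log n + Real.log n) / L = 2 * Real.log n / L := by ring
  rw [e2]
  push_cast
  ring

end

variable {ψ : ℝ → ℂ} {ξ1 κ : ℝ}

lemma Km_sum (h : TF ξ1 ψ) (hκ : 0 < κ) {k : ℕ} (z w : Fin k → ℝ)
    {T : ℝ} (hT : Real.exp 1 ≤ T) {N : ℕ} (hN : T ^ (ξ1 + 2 * k) ≤ N) {t : ℝ} (h1 : 1 ≤ t)
    (h2 : t ≤ T) :
    Km ψ z w κ (Real.log T) t = ∑ x ∈ Finset.range (N + 1) ×ˢ Finset.range (N + 1),
      tm ψ k (∑ j, (z j + w j)) (tau (fun j => -(z j * I))) (tau (fun j => -(w j * I)))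
        (Real.log T) x t := by
  have hT0 : 0 < T := (Real.exp_pos 1).trans_le hT
  have hL : 1 ≤ Real.log T := by rwa [Real.le_log_iff_exp_le hT0]
  set L := Real.log T with hLd
  have hL0 : 0 < L := by linarith
  obtain ⟨D, hD, hd⟩ := tau_ptw k hκ
  have E1 := ZP_DD z hκ (hd z)
  have E2 := ZP_DD w hκ (hd w)
  rw [Km_eq ψ z w κ hL0]
  have hs := (K0_hasSum (h.shift (2 * k * Real.log (t / (2 * Real.pi)) / L)) hκ E1 E2 hL t).mul_left
    (exp (((∑ j, (z j + w j)) * Real.log (t / (2 * Real.pi)) : ℝ) * I))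
  have hfe : ∀ x : ℕ × ℕ, exp (((∑ j, (z j + w j)) * Real.log (t / (2 * Real.pi)) : ℝ) * I) *
      (aa (fun ξ => ψ (ξ - 2 * k * Real.log (t / (2 * Real.pi)) / L))
        (tau (fun j => -(z j * I))) (tau (fun j => -(w j * I))) κ L x *
        exp ((-(Real.log x.1 - Real.log x.2) * t : ℝ) * I)) =
      tm ψ k (∑ j, (z j + w j)) (tau (fun j => -(z j * I))) (tau (fun j => -(w j * I))) L x t := by
    intro x
    rw [aa_eq (h.shift _) hκ E1 E2 hL]
    unfold tt tm cf gg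
    ring
  simp only [hfe] at hs
  refine hs.unique (hasSum_sum_of_ne_finset_zero fun x hx => ?_)
  rw [Finset.mem_product, Finset.mem_range, Finset.mem_range, not_and_or] at hx
  rcases Nat.eq_zero_or_pos x.1 with hx1 | hx1
  · unfold tm cf; rw [hx1, tau_zero]; simp
  rcases Nat.eq_zero_or_pos x.2 with hx2 | hx2
  · unfold tm cf; rw [hx2, tau_zero]; simp
  have hTη : Real.log (T ^ (ξ1 + 2 * k)) = (ξ1 + 2 * k) * L := by rw [Real.log_rpow hT0]
  have hbig : ∀ n : ℕ, ¬ n < N + 1 → (ξ1 + 2 * k) * L < Real.log n := by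
    intro n hn
    rw [← hTη]
    refine Real.log_lt_log (by positivity) (hN.trans_lt ?_)
    exact_mod_cast (by omega : N < n)
  have hmx : ξ1 + 2 * k < (Real.log x.1 + Real.log x.2) / L := by
    rw [lt_div_iff₀ hL0]
    have l1 := Real.log_natCast_nonneg x.1
    have l2 := Real.log_natCast_nonneg x.2
    rcases hx with hx | hx
    · have := hbig _ hx; linarith
    · have := hbig _ hx; linarith
  unfold tm
  rw [gg_zero h hL0 le_rfl h1 h2 hmx]
  simp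

lemma tm_cont (h : TF ξ1 ψ) (k : ℕ) (S : ℝ) (A B : ℕ → ℂ) (L : ℝ) (x : ℕ × ℕ) (T : ℝ) :
    ContinuousOn (tm ψ k S A B L x) (Icc 1 T) := by
  unfold tm
  refine continuousOn_const.mul ((gg_cont h k S L _ 1 T one_pos).mul ?_)
  fun_prop

lemma off_bound (h : TF ξ1 ψ) (hκ : 0 < κ) {k : ℕ} (z w : Fin k → ℝ) :
    ∃ W : ℝ, 0 ≤ W ∧ ∀ T : ℝ, Real.exp 1 ≤ T → ∀ x : ℕ × ℕ, x.1 ≠ x.2 →
      ‖∫ t in (1:ℝ)..T, tm ψ k (∑ j, (z j + w j)) (tau (fun j => -(z j * I)))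
        (tau (fun j => -(w j * I))) (Real.log T) x t‖ ≤
      W * T ^ ((ξ1 + 2 * k) * (1 / 2 + 4 * κ)) *
        (uu κ x.2 * uu κ (x.1 - x.2) + uu κ x.1 * uu κ (x.2 - x.1)) := by
  obtain ⟨D, hD, hd⟩ := tau_ptw k hκ
  obtain ⟨G, hG, hosc⟩ := osc h k (∑ j, (z j + w j))
  have hpi := Real.pi_pos
  refine ⟨2 * Real.pi * G * (D * D), by positivity, fun T hT x hx => ?_⟩
  have hT0 : 0 < T := (Real.exp_pos 1).trans_le hT
  have hT1 : 1 ≤ T := by have := Real.add_one_le_exp 1; linarith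
  have hL : 1 ≤ Real.log T := by rwa [Real.le_log_iff_exp_le hT0]
  have hTp : 0 < T ^ ((ξ1 + 2 * k) * (1 / 2 + 4 * κ)) := by positivity
  have hu : 0 ≤ uu κ x.2 * uu κ (x.1 - x.2) + uu κ x.1 * uu κ (x.2 - x.1) :=
    add_nonneg (mul_nonneg (uu_nonneg _ _) (uu_nonneg _ _))
      (mul_nonneg (uu_nonneg _ _) (uu_nonneg _ _))
  set L := Real.log T with hLd
  have hL0 : 0 < L := by linarith
  have hRn : 0 ≤ 2 * Real.pi * G * (D * D) * T ^ ((ξ1 + 2 * k) * (1 / 2 + 4 * κ)) *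
        (uu κ x.2 * uu κ (x.1 - x.2) + uu κ x.1 * uu κ (x.2 - x.1)) := by positivity
  rcases Nat.eq_zero_or_pos x.1 with hx1 | hx1
  · have : ∀ t, tm ψ k (∑ j, (z j + w j)) (tau (fun j => -(z j * I)))
        (tau (fun j => -(w j * I))) L x t = 0 := by
      intro t; unfold tm cf; rw [hx1, tau_zero]; simp
    simp only [this, intervalIntegral.integral_zero, norm_zero]
    exact hRn
  rcases Nat.eq_zero_or_pos x.2 with hx2 | hx2
  · have : ∀ t, tm ψ k (∑ j, (z j + w j)) (tau (fun j => -(z j * I)))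
        (tau (fun j => -(w j * I))) L x t = 0 := by
      intro t; unfold tm cf; rw [hx2, tau_zero]; simp
    simp only [this, intervalIntegral.integral_zero, norm_zero]
    exact hRn
  rcases lt_or_ge (ξ1 + 2 * k) ((Real.log x.1 + Real.log x.2) / L) with hm | hm
  · have : ∫ t in (1:ℝ)..T, tm ψ k (∑ j, (z j + w j)) (tau (fun j => -(z j * I)))
        (tau (fun j => -(w j * I))) L x t = ∫ t in (1:ℝ)..T, 0 := by
      refine intervalIntegral.integral_congr fun t ht => ?_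
      rw [uIcc_of_le hT1] at ht
      unfold tm
      rw [gg_zero h hL0 le_rfl ht.1 ht.2 hm]
      simp
    rw [this, intervalIntegral.integral_zero, norm_zero]
    exact hRn
  have hm0 : (0:ℝ) < x.1 := by exact_mod_cast hx1
  have hn0 : (0:ℝ) < x.2 := by exact_mod_cast hx2
  have hlog : Real.log x.1 - Real.log x.2 ≠ 0 := by
    intro h0
    have := Real.log_injOn_pos (mem_Ioi.2 hm0) (mem_Ioi.2 hn0) (by linarith)
    exact hx (by exact_mod_cast this)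
  have h1 := hosc L ((Real.log x.1 + Real.log x.2) / L) T (-(Real.log x.1 - Real.log x.2)) hL hT1
    le_rfl (neg_ne_zero.2 hlog)
  rw [abs_neg] at h1
  have h3 := off_le hκ hx1 hx2 hx
  have h4 := hd z x.1
  have h5 := hd w x.2
  -- the weights
  have h6 : (x.1 : ℝ) ^ (-(1 / 2) : ℝ) * (x.2 : ℝ) ^ (-(1 / 2) : ℝ) ≤
      ((x.1 : ℝ) ^ (-(1 + 4 * κ)) * (x.2 : ℝ) ^ (-(1 + 4 * κ))) *
        T ^ ((ξ1 + 2 * k) * (1 / 2 + 4 * κ)) := by
    rw [Real.rpow_def_of_pos hm0, Real.rpow_def_of_pos hm0, Real.rpow_def_of_pos hn0,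
      Real.rpow_def_of_pos hn0, Real.rpow_def_of_pos hT0, ← Real.exp_add, ← Real.exp_add,
      ← Real.exp_add]
    refine Real.exp_le_exp.2 ?_
    rw [div_le_iff₀ hL0] at hm
    have : (Real.log x.1 + Real.log x.2) * (1 / 2 + 4 * κ) ≤ ((ξ1 + 2 * k) * L) * (1 / 2 + 4 * κ) := by
      gcongr
    rw [← hLd]
    linarith
  unfold tm
  rw [intervalIntegral.integral_const_mul, norm_mul]
  have hcf : ‖cf (tau (fun j => -(z j * I))) (tau (fun j => -(w j * I))) L x‖ =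
      2 * Real.pi / L * (‖tau (fun j => -(z j * I)) x.1‖ * ‖tau (fun j => -(w j * I)) x.2‖ *
        ((x.1 : ℝ) ^ (-(1 / 2) : ℝ) * (x.2 : ℝ) ^ (-(1 / 2) : ℝ))) := by
    unfold cf
    rw [norm_mul, norm_mul, norm_mul, Complex.norm_real, Complex.norm_real,
      Real.norm_of_nonneg (by positivity), Real.norm_of_nonneg (by positivity)]
  rw [hcf]
  have hab : 0 < |Real.log x.1 - Real.log x.2| := abs_pos.2 hlog
  calc _ ≤ 2 * Real.pi / L * ((D * (x.1:ℝ) ^ κ) * (D * (x.2:ℝ) ^ κ) *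
        (((x.1 : ℝ) ^ (-(1 + 4 * κ)) * (x.2 : ℝ) ^ (-(1 + 4 * κ))) *
        T ^ ((ξ1 + 2 * k) * (1 / 2 + 4 * κ)))) * (G * L / |Real.log x.1 - Real.log x.2|) := by
        gcongr
    _ = Real.pi * G * (D * D) * T ^ ((ξ1 + 2 * k) * (1 / 2 + 4 * κ)) *
        (((x.1:ℝ) ^ κ * (x.2:ℝ) ^ κ) * ((x.1 : ℝ) ^ (-(1 + 4 * κ)) * (x.2 : ℝ) ^ (-(1 + 4 * κ))) *
        (2 / |Real.log x.1 - Real.log x.2|)) := by
        field_simp
    _ ≤ Real.pi * G * (D * D) * T ^ ((ξ1 + 2 * k) * (1 / 2 + 4 * κ)) *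
        (2 * (uu κ x.2 * uu κ (x.1 - x.2) + uu κ x.1 * uu κ (x.2 - x.1))) := by
        gcongr
    _ = _ := by ring

theorem Km_int (h : TF ξ1 ψ) (hκ : 0 < κ) {k : ℕ} (z w : Fin k → ℝ) :
    ∃ W : ℝ, 0 ≤ W ∧ ∀ T : ℝ, Real.exp 1 ≤ T →
      IntervalIntegrable (Km ψ z w κ (Real.log T)) volume 1 T ∧
      ‖(∫ t in (1:ℝ)..T, Km ψ z w κ (Real.log T) t) - ((2 * Real.pi / Real.log T : ℝ) : ℂ) *
        ∑' n : ℕ, tau (fun j => -(z j * I)) n * tau (fun j => -(w j * I)) n / n *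
          ∫ t in (1:ℝ)..T, gg ψ k (∑ j, (z j + w j)) (Real.log T) (2 * Real.log n / Real.log T) t‖ ≤
      W * T ^ ((ξ1 + 2 * k) * (1 / 2 + 4 * κ)) := by
  obtain ⟨W, hW, hoff⟩ := off_bound h hκ z w
  have hsm : Summable (fun x : ℕ × ℕ => uu κ x.2 * uu κ (x.1 - x.2) + uu κ x.1 * uu κ (x.2 - x.1)) :=
    (uu_sub_summable hκ).add (uu_sub_summable' hκ)
  have hnn : ∀ x : ℕ × ℕ, 0 ≤ uu κ x.2 * uu κ (x.1 - x.2) + uu κ x.1 * uu κ (x.2 - x.1) :=
    fun x => add_nonneg (mul_nonneg (uu_nonneg _ _) (uu_nonneg _ _))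
      (mul_nonneg (uu_nonneg _ _) (uu_nonneg _ _))
  refine ⟨W * ∑' x : ℕ × ℕ, (uu κ x.2 * uu κ (x.1 - x.2) + uu κ x.1 * uu κ (x.2 - x.1)),
    mul_nonneg hW (tsum_nonneg hnn), fun T hT => ?_⟩
  have hT0 : 0 < T := (Real.exp_pos 1).trans_le hT
  have hT1 : 1 ≤ T := by have := Real.add_one_le_exp 1; linarith
  have hL : 1 ≤ Real.log T := by rwa [Real.le_log_iff_exp_le hT0]
  have hoffT := hoff T hT
  obtain ⟨N, hN⟩ := exists_nat_ge (T ^ (ξ1 + 2 * k))
  have hKs := fun (t : ℝ) (h1 : 1 ≤ t) (h2 : t ≤ T) => Km_sum (κ := κ) h hκ z w hT hN h1 h2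
  set A := tau (fun j : Fin k => -(z j * I)) with hA
  set B := tau (fun j : Fin k => -(w j * I)) with hB
  set S := ∑ j, (z j + w j) with hS
  set L := Real.log T with hLd
  have hL0 : 0 < L := by linarith
  set F := Finset.range (N + 1) ×ˢ Finset.range (N + 1) with hF
  have hti : ∀ x, IntervalIntegrable (tm ψ k S A B L x) volume 1 T := fun x =>
    ContinuousOn.intervalIntegrable (by rw [uIcc_of_le hT1]; exact tm_cont h k S A B L x T)
  have hci : ContinuousOn (Km ψ z w κ L) (Icc 1 T) := by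
    have : ContinuousOn (fun t => ∑ x ∈ F, tm ψ k S A B L x t) (Icc 1 T) :=
      continuousOn_finsetSum _ fun x _ => tm_cont h k S A B L x T
    exact this.congr fun t ht => hKs t ht.1 ht.2
  refine ⟨ContinuousOn.intervalIntegrable (by rw [uIcc_of_le hT1]; exact hci), ?_⟩
  have e1 : (∫ t in (1:ℝ)..T, Km ψ z w κ L t) = ∑ x ∈ F, ∫ t in (1:ℝ)..T, tm ψ k S A B L x t := by
    rw [← intervalIntegral.integral_finsetSum fun x _ => hti x]
    refine intervalIntegral.integral_congr fun t ht => ?_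
    rw [uIcc_of_le hT1] at ht
    exact hKs t ht.1 ht.2
  have hTη : Real.log (T ^ (ξ1 + 2 * k)) = (ξ1 + 2 * k) * L := by rw [Real.log_rpow hT0]
  have e2 : ((2 * Real.pi / L : ℝ) : ℂ) * ∑' n : ℕ, A n * B n / n *
      ∫ t in (1:ℝ)..T, gg ψ k S L (2 * Real.log n / L) t =
      ∑ n ∈ Finset.range (N + 1), ∫ t in (1:ℝ)..T, tm ψ k S A B L (n, n) t := by
    have e3 : ∀ n : ℕ, ∫ t in (1:ℝ)..T, tm ψ k S A B L (n, n) t = ((2 * Real.pi / L : ℝ) : ℂ) *
        (A n * B n / n * ∫ t in (1:ℝ)..T, gg ψ k S L (2 * Real.log n / L) t) := by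
      intro n
      rw [← mul_assoc, ← intervalIntegral.integral_const_mul]
      refine intervalIntegral.integral_congr fun t _ => ?_
      exact tm_diag n (tau_zero _)
    rw [tsum_eq_sum (s := Finset.range (N + 1))]
    · simp only [e3]
      rw [Finset.mul_sum]
    · intro n hn
      rw [Finset.mem_range] at hn
      have : ∫ t in (1:ℝ)..T, gg ψ k S L (2 * Real.log n / L) t = ∫ t in (1:ℝ)..T, 0 := by
        refine intervalIntegral.integral_congr fun t ht => ?_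
        rw [uIcc_of_le hT1] at ht
        refine gg_zero h hL0 le_rfl ht.1 ht.2 ?_
        rw [lt_div_iff₀ hL0, ← hTη]
        have h1 : Real.log (T ^ (ξ1 + 2 * k)) < Real.log n := by
          refine Real.log_lt_log (by positivity) (hN.trans_lt ?_)
          exact_mod_cast (by omega : N < n)
        have := Real.log_natCast_nonneg n
        linarith
      rw [this, intervalIntegral.integral_zero, mul_zero]
  rw [e1, e2]
  have e4 : ∑ x ∈ F, ∫ t in (1:ℝ)..T, tm ψ k S A B L x t =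
      ∑ n ∈ Finset.range (N + 1), (∫ t in (1:ℝ)..T, tm ψ k S A B L (n, n) t) +
      ∑ x ∈ F, (if x.1 = x.2 then 0 else ∫ t in (1:ℝ)..T, tm ψ k S A B L x t) := by
    have e5 : ∑ n ∈ Finset.range (N + 1), (∫ t in (1:ℝ)..T, tm ψ k S A B L (n, n) t) =
        ∑ x ∈ F, (if x.1 = x.2 then ∫ t in (1:ℝ)..T, tm ψ k S A B L x t else 0) := by
      rw [hF, Finset.sum_product]
      refine Finset.sum_congr rfl fun n hn => ?_
      simp only
      rw [Finset.sum_ite_eq, if_pos hn]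
    rw [e5, ← Finset.sum_add_distrib]
    refine Finset.sum_congr rfl fun x _ => ?_
    split_ifs <;> simp
  rw [e4, add_sub_cancel_left]
  calc _ ≤ ∑ x ∈ F, W * T ^ ((ξ1 + 2 * k) * (1 / 2 + 4 * κ)) *
        (uu κ x.2 * uu κ (x.1 - x.2) + uu κ x.1 * uu κ (x.2 - x.1)) := by
        refine norm_sum_le_of_le _ fun x _ => ?_
        have := hnn x
        split_ifs with hx
        · rw [norm_zero]; positivity
        · exact hoffT x hx
    _ = W * T ^ ((ξ1 + 2 * k) * (1 / 2 + 4 * κ)) *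
        ∑ x ∈ F, (uu κ x.2 * uu κ (x.1 - x.2) + uu κ x.1 * uu κ (x.2 - x.1)) := by
        rw [Finset.mul_sum]
    _ ≤ W * T ^ ((ξ1 + 2 * k) * (1 / 2 + 4 * κ)) *
        ∑' x : ℕ × ℕ, (uu κ x.2 * uu κ (x.1 - x.2) + uu κ x.1 * uu κ (x.2 - x.1)) := by
        gcongr
        exact hsm.sum_le_tsum F fun x _ => hnn x
    _ = _ := by ring

end

end Pool.Agent.W182.KO
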