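import Pool.Agent.H27.G.R_seed8.W182.KO.Up3

set_option autoImplicit false

/-! The band-limited theorem at the upper edge. -/

namespace Pool.Agent.W182.KO

open Complex Filter Topology MeasureTheory Set
open scoped ContDiff

noncomputable section

lemma exists_TF {ψ : ℝ → ℂ} (hc : ContDiff ℝ ∞ ψ) (hs : HasCompactSupport ψ) :
    ∃ X : ℝ, 0 ≤ X ∧ TF X ψ := by
  obtain ⟨r, hr⟩ := hs.isCompact.isBounded.subset_closedBall 0
  refine ⟨max r 0, le_max_right _ _, hc, hs, fun ξ hξ => ?_⟩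
  by_contra h
  have h1 : ξ ∈ tsupport ψ := subset_tsupport _ h
  have h2 := hr h1
  rw [Metric.mem_closedBall, dist_zero_right, Real.norm_eq_abs] at h2
  have := le_abs_self ξ
  have := le_max_left r 0
  linarith

lemma TF_neg {ψ : ℝ → ℂ} {ξ0 : ℝ} (hc : ContDiff ℝ ∞ ψ) (hs : HasCompactSupport ψ)
    (h0 : ∀ ξ, ξ < ξ0 → ψ ξ = 0) : TF (-ξ0) (fun ξ => ψ (-ξ)) where
  cd := hc.comp contDiff_neg
  cs := hs.comp_homeomorph (Homeomorph.neg ℝ)
  sp ξ hξ := h0 (-ξ) (by linarith)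

lemma P_neg (ψ : ℝ → ℂ) (z : ℂ) : P (fun ξ => ψ (-ξ)) z = P ψ (-z) := by
  unfold P
  rw [← integral_neg_eq_self]
  congr 1; funext ξ
  simp

lemma I0_refl {k l : ℕ} (ψ : ℝ → ℂ) (z : Fin k → ℝ) (w : Fin l → ℝ) (L t : ℝ) :
    I0 ψ (ZP z) (ZP w) L t = I0 (fun ξ => ψ (-ξ)) (ZR (fun j => -w j)) (ZR (fun j => -z j)) L t := by
  unfold I0
  rw [← integral_neg_eq_self]
  congr 1; funext y
  rw [P_neg]
  have e1 : ZR (fun j => -w j) (1 / 2 + (y + t : ℝ) * I) = ZP w (1 / 2 + (-y - t : ℝ) * I) := by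
    unfold ZR ZP
    refine Finset.prod_congr rfl fun j _ => ?_
    congr 1; push_cast; ring
  have e2 : ZR (fun j => -z j) (1 / 2 + (y - t : ℝ) * I) = ZP z (1 / 2 + (-y + t : ℝ) * I) := by
    unfold ZR ZP
    refine Finset.prod_congr rfl fun j _ => ?_
    congr 1; push_cast; ring
  rw [e1, e2]
  have e3 : -((L:ℂ) * y * I) = L * (-y : ℝ) * I := by push_cast; ring
  rw [e3]
  push_cast
  ring

theorem upper {ψ : ℝ → ℂ} {ξ0 : ℝ} (hcd : ContDiff ℝ ∞ ψ) (hcs : HasCompactSupport ψ)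
    (h0 : ∀ ξ, ξ < ξ0 → ψ ξ = 0) {k : ℕ} (hk : 1 ≤ k) (hξ : ξ0 ≤ 2 * k) {θ : ℝ}
    (hθ0 : (2 * k - ξ0) / 2 < θ) (z w : Fin k → ℝ) :
    ∃ C T1 : ℝ, 0 ≤ C ∧ Real.exp 1 ≤ T1 ∧ ∀ T : ℝ, T1 ≤ T →
      ‖(∫ y : ℝ, P ψ (Real.log T * y * I) * (∫ t in (0:ℝ)..T,
        ZP z (1 / 2 + (y + t : ℝ) * I) * ZP w (1 / 2 + (y - t : ℝ) * I))) -
        ((2 * Real.pi / Real.log T : ℝ) : ℂ) *
        ∑' n : ℕ, tau (fun j => w j * I) n * tau (fun j => z j * I) n / n *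
          ∫ t in (1:ℝ)..T, exp ((-(∑ j, (z j + w j)) * Real.log (t / (2 * Real.pi)) : ℝ) * I) *
            ψ ((2 * k * Real.log (t / (2 * Real.pi)) - 2 * Real.log n) / Real.log T)‖ ≤
      C * T ^ θ := by
  have hk0 : (1:ℝ) ≤ k := by exact_mod_cast hk
  have hN := TF_neg hcd hcs h0
  obtain ⟨X, hX0, hX⟩ := exists_TF hcd hcs
  set η : ℝ := 2 * k - ξ0 with hη
  have hη0 : 0 ≤ η := by rw [hη]; linarith
  have hθp : 0 < θ := by linarith
  set κ : ℝ := (θ - η / 2) / (4 * (η + 1)) with hκd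
  have hκ : 0 < κ := by
    have : 0 < θ - η / 2 := by linarith
    positivity
  have hηκ : η * (1 / 2 + 4 * κ) ≤ θ := by
    have e : η * (4 * κ) = (θ - η / 2) * (η / (η + 1)) := by
      rw [hκd]; field_simp
    have h1 : η / (η + 1) ≤ 1 := by rw [div_le_one (by linarith)]; linarith
    have h2 : (θ - η / 2) * (η / (η + 1)) ≤ (θ - η / 2) * 1 := by
      have : 0 < θ - η / 2 := by linarith
      gcongr
    linarith
  obtain ⟨D, hD, hd⟩ := tau_ptw k hκ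
  obtain ⟨C1, G1⟩ := ZP_DF z hκ hD (hd z) (le_refl (2 * k)) (le_max_left (RR z) (RR w))
  obtain ⟨C2, G2⟩ := ZP_DF w hκ hD (hd w) (le_refl (2 * k)) (le_max_right (RR z) (RR w))
  obtain ⟨Ca, hCa, ha⟩ := I0_norm_le hX G1 G2
  obtain ⟨M1, hM1⟩ := ZR_DG (fun j => -w j) (c := 1 + 4 * κ) (by linarith)
  obtain ⟨M2, hM2⟩ := ZR_DG (fun j => -z j) (c := 1 + 4 * κ) (by linarith)
  obtain ⟨C3, G3⟩ := hM1 (max M1 M2) (le_max_left _ _)
  obtain ⟨C4, G4⟩ := hM2 (max M1 M2) (le_max_right _ _)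
  obtain ⟨Cb, hCb, hb⟩ := K0_model hN hκ hk (fun j => -w j) (fun j => -z j)
  obtain ⟨W, hW, hw⟩ := Km_int hN hκ (fun j => -w j) (fun j => -z j)
  refine ⟨Ca * 2 ^ (2 * (2 * k)) + Cb + W, Real.exp 1, by positivity, le_rfl, fun T hT => ?_⟩
  have hT0 : 0 < T := (Real.exp_pos 1).trans_le hT
  have hT1 : 1 ≤ T := by have := Real.add_one_le_exp 1; linarith
  have hL : 1 ≤ Real.log T := by rwa [Real.le_log_iff_exp_le hT0]
  obtain ⟨hKi, hKm⟩ := hw T hT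
  rw [I0_swap hX G1 G2 hL hT0.le]
  set L := Real.log T with hLd
  have h1θ : 1 ≤ T ^ θ := Real.one_le_rpow hT1 hθp.le
  have iI := I0_int hX G1 G2 hL hT0.le
  have iI1 : IntervalIntegrable (I0 ψ (ZP z) (ZP w) L) volume 0 1 :=
    iI.mono_set (by rw [uIcc_of_le zero_le_one, uIcc_of_le hT0.le]; exact Icc_subset_Icc_right hT1)
  have iI2 : IntervalIntegrable (I0 ψ (ZP z) (ZP w) L) volume 1 T :=
    iI.mono_set (by rw [uIcc_of_le hT1, uIcc_of_le hT0.le]; exact Icc_subset_Icc_left zero_le_one)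
  have p1 : ‖∫ t in (0:ℝ)..1, I0 ψ (ZP z) (ZP w) L t‖ ≤ (Ca * 2 ^ (2 * (2 * k))) * T ^ θ := by
    have := intervalIntegral.norm_integral_le_of_norm_le_const (a := 0) (b := 1)
      (f := I0 ψ (ZP z) (ZP w) L) (C := Ca * 2 ^ (2 * (2 * k))) (fun t ht => by
        rw [uIoc_of_le zero_le_one] at ht
        refine (ha L t hL ht.1.le).trans ?_
        have := ht.1
        have := ht.2
        gcongr
        linarith)
    refine this.trans ?_
    rw [sub_zero, abs_one, mul_one]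
    exact le_mul_of_one_le_right (by positivity) h1θ
  have ha1 : (1:ℝ) ≤ k * (1 + 8 * κ) := by nlinarith
  have hE : Real.exp (-ξ0 * (L * (1 + 4 * κ - 1 / 2))) * T ^ (k * (1 + 8 * κ) - 1) * T =
      T ^ (η * (1 / 2 + 4 * κ)) := by
    have e0 : Real.exp (-ξ0 * (L * (1 + 4 * κ - 1 / 2))) = T ^ (-ξ0 * (1 / 2 + 4 * κ)) := by
      rw [Real.rpow_def_of_pos hT0]
      congr 1; rw [hLd]; ring
    rw [e0, ← Real.rpow_add hT0]
    nth_rewrite 2 [← Real.rpow_one T]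
    rw [← Real.rpow_add hT0]
    congr 1
    rw [hη]; ring
  have hEθ : T ^ (η * (1 / 2 + 4 * κ)) ≤ T ^ θ := Real.rpow_le_rpow_of_exponent_le hT1 hηκ
  have p2 : ‖∫ t in (1:ℝ)..T, (I0 ψ (ZP z) (ZP w) L t -
      Km (fun ξ => ψ (-ξ)) (fun j => -w j) (fun j => -z j) κ L t)‖ ≤ Cb * T ^ θ := by
    have := intervalIntegral.norm_integral_le_of_norm_le_const (a := 1) (b := T)
      (f := fun t => I0 ψ (ZP z) (ZP w) L t -
        Km (fun ξ => ψ (-ξ)) (fun j => -w j) (fun j => -z j) κ L t)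
      (C := Cb * (Real.exp (-ξ0 * (L * (1 + 4 * κ - 1 / 2))) * T ^ (k * (1 + 8 * κ) - 1)))
      (fun t ht => by
        rw [uIoc_of_le hT1] at ht
        rw [I0_refl, shift0 hN (by linarith) G3 G4 hL (by linarith [ht.1])]
        refine (hb L t hL ht.1.le).trans ?_
        have h1 : t ^ (k * (1 + 8 * κ) - 1) ≤ T ^ (k * (1 + 8 * κ) - 1) :=
          Real.rpow_le_rpow (by linarith [ht.1]) ht.2 (by linarith)
        rw [mul_assoc]
        gcongr)
    refine this.trans ?_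
    rw [abs_of_nonneg (by linarith)]
    calc Cb * (Real.exp (-ξ0 * (L * (1 + 4 * κ - 1 / 2))) * T ^ (k * (1 + 8 * κ) - 1)) * (T - 1) ≤
        Cb * (Real.exp (-ξ0 * (L * (1 + 4 * κ - 1 / 2))) * T ^ (k * (1 + 8 * κ) - 1)) * T := by
          gcongr; linarith
      _ = Cb * (Real.exp (-ξ0 * (L * (1 + 4 * κ - 1 / 2))) * T ^ (k * (1 + 8 * κ) - 1) * T) := by ring
      _ = Cb * T ^ (η * (1 / 2 + 4 * κ)) := by rw [hE]
      _ ≤ _ := by gcongr
  -- the diagonal term in the stated form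
  have hdg : ((2 * Real.pi / L : ℝ) : ℂ) *
        ∑' n : ℕ, tau (fun j => w j * I) n * tau (fun j => z j * I) n / n *
          ∫ t in (1:ℝ)..T, exp ((-(∑ j, (z j + w j)) * Real.log (t / (2 * Real.pi)) : ℝ) * I) *
            ψ ((2 * k * Real.log (t / (2 * Real.pi)) - 2 * Real.log n) / L) =
      ((2 * Real.pi / L : ℝ) : ℂ) *
        ∑' n : ℕ, tau (fun j => -((-w j : ℝ) * I)) n * tau (fun j => -((-z j : ℝ) * I)) n / n *
          ∫ t in (1:ℝ)..T, gg (fun ξ => ψ (-ξ)) k (∑ j, (-w j + -z j)) L (2 * Real.log n / L) t := by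
    congr 1
    refine tsum_congr fun n => ?_
    have e1 : (fun j : Fin k => -(((-w j : ℝ) : ℂ) * I)) = fun j => w j * I := by
      funext j; push_cast; ring
    have e2 : (fun j : Fin k => -(((-z j : ℝ) : ℂ) * I)) = fun j => z j * I := by
      funext j; push_cast; ring
    rw [e1, e2]
    congr 1
    refine intervalIntegral.integral_congr fun t _ => ?_
    unfold gg
    have e3 : ∑ j, (-w j + -z j) = -∑ j, (z j + w j) := by
      rw [← Finset.sum_neg_distrib]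
      exact Finset.sum_congr rfl fun j _ => by ring
    rw [e3]
    simp only
    congr 2
    ring
  rw [hdg]
  have hηe : -ξ0 + 2 * k = η := by rw [hη]; ring
  rw [hηe] at hKm
  rw [← intervalIntegral.integral_add_adjacent_intervals iI1 iI2]
  rw [intervalIntegral.integral_sub iI2 hKi] at p2
  set I1 := ∫ t in (0:ℝ)..1, I0 ψ (ZP z) (ZP w) L t
  set I2 := ∫ t in (1:ℝ)..T, I0 ψ (ZP z) (ZP w) L t
  set K2 := ∫ t in (1:ℝ)..T, Km (fun ξ => ψ (-ξ)) (fun j => -w j) (fun j => -z j) κ L t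
  have p3 := hKm.trans (mul_le_mul_of_nonneg_left hEθ hW)
  set Dg := ((2 * Real.pi / L : ℝ) : ℂ) *
        ∑' n : ℕ, tau (fun j => -((-w j : ℝ) * I)) n * tau (fun j => -((-z j : ℝ) * I)) n / n *
          ∫ t in (1:ℝ)..T, gg (fun ξ => ψ (-ξ)) k (∑ j, (-w j + -z j)) L (2 * Real.log n / L) t
  calc ‖I1 + I2 - Dg‖ = ‖I1 + (I2 - K2) + (K2 - Dg)‖ := by congr 1; ring
    _ ≤ ‖I1‖ + ‖I2 - K2‖ + ‖K2 - Dg‖ :=
        (norm_add_le _ _).trans (add_le_add (norm_add_le _ _) le_rfl)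
    _ ≤ _ := by linarith

end

end Pool.Agent.W182.KO
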